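import Pool.Agent.W643.CE.Trace

/-!
# Functionals supported on a central subgroup
-/

set_option autoImplicit false
set_option linter.unusedSectionVars false

namespace Pool.Agent.W643.CE

open Finset Pool.Agent.H23R2 Pool.Agent.H23R2.Ch Pool.Agent.H23R2.Cyc

variable {R : Type*} [CommRing R] {H : Type*} [Group H]

/-- the span of the differences `h - h b`, `b ∈ B` -/
noncomputable def DB (R : Type*) [CommRing R] {H : Type*} [Group H] (B : Subgroup H) :
    Submodule R (MonoidAlgebra R H) :=
  Submodule.span R {x | ∃ h : H, ∃ b ∈ B,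
    MonoidAlgebra.single h 1 - MonoidAlgebra.single (h * b) 1 = x}

lemma DB_mono {B C : Subgroup H} (h : B ≤ C) : DB R B ≤ DB R C := by
  refine Submodule.span_mono ?_
  rintro x ⟨g, b, hb, rfl⟩
  exact ⟨g, b, h hb, rfl⟩

/-- every element of a power of `DB A` comes from a finitely generated subgroup -/
lemma DB_pow_fg (A : Subgroup H) (N : ℕ) {x : MonoidAlgebra R H} (hx : x ∈ (DB R A) ^ N) :
    ∃ B : Subgroup H, B ≤ A ∧ B.FG ∧ x ∈ (DB R B) ^ N := by
  have hcl : ∀ x y : MonoidAlgebra R H,
      (∃ B : Subgroup H, B ≤ A ∧ B.FG ∧ x ∈ (DB R B) ^ N) →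
      (∃ B : Subgroup H, B ≤ A ∧ B.FG ∧ y ∈ (DB R B) ^ N) →
      ∃ B : Subgroup H, B ≤ A ∧ B.FG ∧ x + y ∈ (DB R B) ^ N := by
    rintro x y ⟨B, hBA, hB, hx⟩ ⟨C, hCA, hC, hy⟩
    refine ⟨B ⊔ C, sup_le hBA hCA, hB.sup hC, Submodule.add_mem _ ?_ ?_⟩
    · exact (pow_le_pow_left' (DB_mono le_sup_left) N) hx
    · exact (pow_le_pow_left' (DB_mono le_sup_right) N) hy
  induction N generalizing x with
  | zero =>
    refine ⟨⊥, bot_le, ⟨∅, by simp⟩, ?_⟩
    simpa using hx
  | succ N ih =>
    rw [pow_succ] at hx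
    refine Submodule.mul_induction_on hx ?_ (fun x y h1 h2 => hcl x y h1 h2)
    intro m hm y hy
    have h1 : ∀ z ∈ DB R A, ∃ B : Subgroup H, B ≤ A ∧ B.FG ∧ z ∈ DB R B := by
      intro z hz
      refine Submodule.span_induction ?_ ?_ ?_ ?_ hz
      · rintro z ⟨h, b, hb, rfl⟩
        refine ⟨Subgroup.zpowers b, by rwa [Subgroup.zpowers_le], ?_, ?_⟩
        · exact ⟨{b}, by simp [Subgroup.zpowers_eq_closure]⟩
        · exact Submodule.subset_span ⟨h, b, Subgroup.mem_zpowers b, rfl⟩
      · exact ⟨⊥, bot_le, ⟨∅, by simp⟩, Submodule.zero_mem _⟩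
      · rintro x y - - ⟨B, hBA, hB, hx⟩ ⟨C, hCA, hC, hy⟩
        exact ⟨B ⊔ C, sup_le hBA hCA, hB.sup hC,
          Submodule.add_mem _ (DB_mono le_sup_left hx) (DB_mono le_sup_right hy)⟩
      · rintro r x - ⟨B, hBA, hB, hx⟩
        exact ⟨B, hBA, hB, Submodule.smul_mem _ _ hx⟩
    have hcl' : ∀ x y : MonoidAlgebra R H,
        (∃ B : Subgroup H, B ≤ A ∧ B.FG ∧ x ∈ (DB R B) ^ N) →
        (∃ B : Subgroup H, B ≤ A ∧ B.FG ∧ y ∈ (DB R B) ^ N) →
        ∃ B : Subgroup H, B ≤ A ∧ B.FG ∧ x + y ∈ (DB R B) ^ N := by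
      rintro x y ⟨B, hBA, hB, hx⟩ ⟨C, hCA, hC, hy⟩
      refine ⟨B ⊔ C, sup_le hBA hCA, hB.sup hC, Submodule.add_mem _ ?_ ?_⟩
      · exact (pow_le_pow_left' (DB_mono le_sup_left) N) hx
      · exact (pow_le_pow_left' (DB_mono le_sup_right) N) hy
    obtain ⟨B, hBA, hB, hB'⟩ := ih hm hcl'
    obtain ⟨C, hCA, hC, hC'⟩ := h1 y hy
    refine ⟨B ⊔ C, sup_le hBA hCA, hB.sup hC, ?_⟩
    rw [pow_succ]
    exact Submodule.mul_mem_mul (pow_le_pow_left' (DB_mono le_sup_left) N hB')
      (DB_mono le_sup_right hC')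

open Classical in
/-- the product of the functions `μ i`, `i ∈ s`, on `B`, extended by zero -/
noncomputable def Ph {ι : Type*} (B : Subgroup H) (μ : ι → H → R) (s : Finset ι) (h : H) : R :=
  if h ∈ B then ∏ i ∈ s, μ i h else 0

lemma Ph_comm {ι : Type*} {B : Subgroup H} (hB : ∀ b ∈ B, ∀ h : H, b * h = h * b)
    (μ : ι → H → R) (s : Finset ι) (x y : H) : Ph B μ s (x * y) = Ph B μ s (y * x) := by
  have h1 : ∀ x y : H, x * y ∈ B → y * x = x * y := by
    intro x y h
    have h2 := hB _ h x
    have h3 : y * x = x⁻¹ * (x * y * x) := by group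
    rw [h3, h2, inv_mul_cancel_left]
  by_cases hxy : x * y ∈ B
  · rw [h1 x y hxy]
  · have hyx : y * x ∉ B := by
      intro h
      exact hxy (by rw [h1 y x h]; exact h)
    unfold Ph
    rw [if_neg hxy, if_neg hyx]

/-- translation by a member of `B` -/
lemma Ph_mul {ι : Type*} [DecidableEq ι] {B : Subgroup H} {μ : ι → H → R}
    (hμ : ∀ i, ∀ a ∈ B, ∀ b ∈ B, μ i (a * b) = μ i a + μ i b) (s : Finset ι) (h : H) {b : H}
    (hb : b ∈ B) : Ph B μ s (h * b) =
      ∑ t ∈ s.powerset, (∏ i ∈ s \ t, μ i b) * Ph B μ t h := by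
  classical
  by_cases hh : h ∈ B
  · have h1 : h * b ∈ B := B.mul_mem hh hb
    unfold Ph
    rw [if_pos h1]
    simp only [if_pos hh]
    have h2 : ∏ i ∈ s, μ i (h * b) = ∏ i ∈ s, (μ i h + μ i b) :=
      Finset.prod_congr rfl fun i _ => hμ i h hh b hb
    rw [h2, Finset.prod_add]
    exact Finset.sum_congr rfl fun t _ => mul_comm _ _
  · have h1 : h * b ∉ B := by
      intro h2
      apply hh
      have := B.mul_mem h2 (B.inv_mem hb)
      rwa [mul_inv_cancel_right] at this
    unfold Ph
    rw [if_neg h1]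
    simp only [if_neg hh, mul_zero, Finset.sum_const_zero]

/-- the functional of a translated function -/
lemma ex_mul_single (Φ : H → R) (z : MonoidAlgebra R H) (b : H) :
    ex (k := R) Φ (z * MonoidAlgebra.single b 1) = ex (k := R) (fun h => Φ (h * b)) z := by
  induction z using MonoidAlgebra.induction_linear with
  | zero => simp
  | add x y hx hy => rw [add_mul, map_add, map_add, hx, hy]
  | single g r => rw [MonoidAlgebra.single_mul_single, mul_one, ex_single, ex_single]

lemma ex_sum {ι : Type*} (s : Finset ι) (c : ι → R) (Φ : ι → H → R) (z : MonoidAlgebra R H) :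
    ex (k := R) (fun h => ∑ i ∈ s, c i * Φ i h) z = ∑ i ∈ s, c i * ex (k := R) (Φ i) z := by
  induction z using MonoidAlgebra.induction_linear with
  | zero => simp
  | add x y hx hy =>
    rw [map_add, hx, hy, ← Finset.sum_add_distrib]
    refine Finset.sum_congr rfl fun i _ => ?_
    rw [map_add, mul_add]
  | single g r =>
    rw [ex_single, Finset.smul_sum]
    refine Finset.sum_congr rfl fun i _ => ?_
    rw [ex_single, smul_eq_mul, smul_eq_mul]
    ring

lemma single_comm {b : H} (hb : ∀ h : H, b * h = h * b) (z : MonoidAlgebra R H) :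
    MonoidAlgebra.single b (1 : R) * z = z * MonoidAlgebra.single b 1 := by
  induction z using MonoidAlgebra.induction_linear with
  | zero => simp
  | add z z' h1 h2 => rw [mul_add, add_mul, h1, h2]
  | single g r =>
    rw [MonoidAlgebra.single_mul_single, MonoidAlgebra.single_mul_single, hb, one_mul, mul_one]

/-- **Vanishing on a power.** -/
theorem ex_pow_zero {ι : Type*} [DecidableEq ι] {B : Subgroup H}
    (hB : ∀ b ∈ B, ∀ h : H, b * h = h * b) {μ : ι → H → R}
    (hμ : ∀ i, ∀ a ∈ B, ∀ b ∈ B, μ i (a * b) = μ i a + μ i b) (N : ℕ) (s : Finset ι)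
    (hs : s.card < N) (x : MonoidAlgebra R H) {y : MonoidAlgebra R H} (hy : y ∈ (DB R B) ^ N) :
    ex (k := R) (Ph B μ s) (x * y) = 0 := by
  induction N generalizing s x y with
  | zero => omega
  | succ N ih =>
    rw [pow_succ'] at hy
    refine Submodule.mul_induction_on hy ?_ ?_
    · intro m hm z hz
      refine Submodule.span_induction (p := fun m _ => ex (k := R) (Ph B μ s) (x * (m * z)) = 0)
        ?_ ?_ ?_ ?_ hm
      · rintro m ⟨h, b, hb, rfl⟩
        have e1 : x * ((MonoidAlgebra.single h (1 : R) - MonoidAlgebra.single (h * b) 1) * z) =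
            x * MonoidAlgebra.single h 1 * z -
              (x * MonoidAlgebra.single h 1 * z) * MonoidAlgebra.single b 1 := by
          have e3 : MonoidAlgebra.single (h * b) (1 : R) =
              MonoidAlgebra.single h 1 * MonoidAlgebra.single b 1 := by
            rw [MonoidAlgebra.single_mul_single, mul_one]
          rw [mul_assoc (x * MonoidAlgebra.single h 1) z, ← single_comm (hB b hb) z, e3]
          noncomm_ring
        have e2 : (fun g => Ph B μ s (g * b)) =
            fun g => ∑ t ∈ s.powerset, (∏ i ∈ s \ t, μ i b) * Ph B μ t g := by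
          funext g
          exact Ph_mul hμ s g hb
        rw [e1, map_sub, ex_mul_single, e2, ex_sum, ← Finset.add_sum_erase _ _
          (Finset.mem_powerset_self s), Finset.sdiff_self, Finset.prod_empty, one_mul,
          Finset.sum_eq_zero, add_zero, sub_self]
        intro t ht
        rw [Finset.mem_erase, Finset.mem_powerset] at ht
        have h3 : t.card < s.card := Finset.card_lt_card (lt_of_le_of_ne ht.2 ht.1)
        rw [ih t (by omega) _ hz, mul_zero]
      · simp
      · intro a b _ _ ha hb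
        rw [add_mul, mul_add, map_add, ha, hb, add_zero]
      · intro r a _ ha
        rw [smul_mul_assoc, mul_smul_comm, map_smul, ha, smul_zero]
    · intro a b ha hb
      rw [mul_add, map_add, ha, hb, add_zero]

end Pool.Agent.W643.CE
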