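import Pool.Agent.W643.CE.Main

/-!
# Positive characteristic
-/

set_option autoImplicit false
set_option linter.unusedSectionVars false

namespace Pool.Agent.W643.CE

open Finset Pool.Agent.H23R2 Pool.Agent.H23R2.Ch Pool.Agent.H23R2.Cyc

variable {H : Type*} [Group H] {d : Type*} [Fintype d] [DecidableEq d]

theorem main_charP {K : Type*} [CommRing K] {p : ℕ} (hp : p.Prime) (hK : (p : K) = 0)
    {A : Subgroup H}
    (hA : ∀ a ∈ A, ∀ h : H, a * h = h * a) (hpA : ∀ h : H, h ^ p ∈ A → h ∈ A)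
    {m n : ℕ} (hm : 1 ≤ m) (hmn : m ≤ n)
    (μ : Fin m → H → K) (hμ : ∀ i, ∀ a ∈ A, ∀ b ∈ A, μ i (a * b) = μ i a + μ i b)
    (E : Matrix d d (MonoidAlgebra K H))
    (hE : ∀ i j, (E * E - E) i j ∈ (DB K A) ^ (n + 1)) :
    tf (k := K) (Ph A μ univ) E = 0 := by
  classical
  have : Fact p.Prime := ⟨hp⟩
  have hpow : ∀ q : ℕ, tf (k := K) (Ph A μ univ) (E ^ (q + 1)) =
      tf (k := K) (Ph A μ univ) E := by
    intro q
    refine tf_pow_eq (fun y i j => ?_) q
    refine ex_pow_zero hA hμ (n + 1) univ ?_ y (hE i j)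
    rw [Finset.card_univ, Fintype.card_fin]
    omega
  have hΦ := Ph_comm (R := K) hA μ univ
  have h1 := trace_pow_p (tf (k := K) (Ph A μ univ)) (tf_mul_comm _ hΦ) (p := p)
    (fun x => by rw [nsmul_eq_mul, hK, zero_mul])
    (fun s : {g // g ∈ msupp E} => io (cm E s.1) s.1)
  rw [← eq_sum_io] at h1
  have h2 := hpow (p - 1)
  rw [Nat.sub_add_cancel hp.one_lt.le] at h2
  rw [← h2, h1]
  refine Finset.sum_eq_zero fun s _ => ?_
  rw [io_pow, tf_io, smul_eq_mul]
  by_cases hs : s.1 ^ p ∈ A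
  · have hsA := hpA _ hs
    have h3 : ∀ i, ∀ q : ℕ, μ i (s.1 ^ q) = q * μ i s.1 := by
      intro i q
      have h0 : μ i 1 = 0 := by
        have := hμ i 1 A.one_mem 1 A.one_mem
        rw [mul_one] at this
        exact left_eq_add.mp this
      induction q with
      | zero => simp [h0]
      | succ q ih =>
        rw [pow_succ, hμ i _ (A.pow_mem hsA q) _ hsA, ih]
        push_cast
        ring
    have h4 : Ph A μ univ (s.1 ^ p) = 0 := by
      unfold Ph
      rw [if_pos hs]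
      refine Finset.prod_eq_zero (Finset.mem_univ (⟨0, hm⟩ : Fin m)) ?_
      rw [h3, hK, zero_mul]
    rw [h4, mul_zero]
  · have h4 : Ph A μ univ (s.1 ^ p) = 0 := by
      unfold Ph
      rw [if_neg hs]
    rw [h4, mul_zero]

end Pool.Agent.W643.CE
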