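import Pool.Agent.W643.CE.Ker

/-!
# Homogeneous components
-/

set_option autoImplicit false
set_option linter.unusedSectionVars false

namespace Pool.Agent.W643.CE

open Finset Pool.Agent.H23R2 Pool.Agent.H23R2.Ch Pool.Agent.H23R2.Cyc
open scoped Pointwise

variable {R : Type*} [CommRing R] {H : Type*} [Group H]

lemma ex_congr' {M : Type*} [AddCommGroup M] [Module R M] (Φ Ψ : H → M) (x : MonoidAlgebra R H)
    (h : ∀ f, x.coeff f ≠ 0 → Φ f = Ψ f) : ex (k := R) Φ x = ex (k := R) Ψ x := by
  rw [ex_eq_sum, ex_eq_sum]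
  exact Finset.sum_congr rfl fun f hf => by rw [h f (Finsupp.mem_support_iff.mp hf)]

lemma ex_id (x : MonoidAlgebra R H) :
    ex (k := R) (fun h => MonoidAlgebra.single h (1 : R)) x = x := by
  induction x using MonoidAlgebra.induction_linear with
  | zero => simp
  | add x y hx hy => rw [map_add, hx, hy]
  | single g r => rw [ex_single, ← single_eq_smul]

/-- the component of degree `z` -/
noncomputable def comp (R : Type*) [CommRing R] {H : Type*} [Group H] (α : H → ℚ) (z : ℤ) :
    MonoidAlgebra R H →ₗ[R] MonoidAlgebra R H :=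
  ex (fun h => if α h = z then MonoidAlgebra.single h (1 : R) else 0)

lemma comp_single (α : H → ℚ) (z : ℤ) (h : H) (r : R) :
    comp R α z (MonoidAlgebra.single h r) = if α h = z then MonoidAlgebra.single h r else 0 := by
  unfold comp
  rw [ex_single]
  split_ifs
  · rw [← single_eq_smul]
  · rw [smul_zero]

lemma comp_comp_mul {α : H → ℚ} (hα : ∀ x y, α (x * y) = α x + α y) (z w : ℤ)
    (x y : MonoidAlgebra R H) :
    comp R α z (comp R α w x * y) = comp R α w x * comp R α (z - w) y := by
  induction x using MonoidAlgebra.induction_linear with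
  | zero => simp
  | add x x' h h' => simp only [map_add, add_mul, h, h']
  | single g r =>
    rw [comp_single]
    split_ifs with h1
    · induction y using MonoidAlgebra.induction_linear with
      | zero => simp
      | add y y' h h' => simp only [map_add, mul_add, h, h']
      | single g' r' =>
        rw [MonoidAlgebra.single_mul_single, comp_single, comp_single, hα, h1]
        by_cases h2 : α g' = ((z - w : ℤ) : ℚ)
        · rw [if_pos h2, if_pos (by rw [h2]; push_cast; ring), MonoidAlgebra.single_mul_single]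
        · rw [if_neg h2, if_neg, mul_zero]
          intro h3
          apply h2
          push_cast
          linarith
    · simp

/-- the degrees are integers of absolute value at most `N` -/
def Dg (α : H → ℚ) (N : ℕ) (x : MonoidAlgebra R H) : Prop :=
  ∀ h, x.coeff h ≠ 0 → ∃ z : ℤ, α h = z ∧ -(N : ℤ) ≤ z ∧ z ≤ N

lemma sum_comp {α : H → ℚ} {N : ℕ} {x : MonoidAlgebra R H} (hx : Dg α N x) :
    ∑ z ∈ Finset.Icc (-(N : ℤ)) N, comp R α z x = x := by
  classical
  have h1 : ∑ z ∈ Finset.Icc (-(N : ℤ)) N, comp R α z x = ex (k := R) (fun h =>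
      ∑ z ∈ Finset.Icc (-(N : ℤ)) N, if α h = z then MonoidAlgebra.single h (1 : R) else 0) x := by
    unfold comp
    rw [ex_eq_sum]
    simp only [ex_eq_sum]
    rw [Finset.sum_comm]
    exact Finset.sum_congr rfl fun f _ => (Finset.smul_sum).symm
  rw [h1]
  conv_rhs => rw [← ex_id x]
  refine ex_congr' _ _ x fun h hh => ?_
  obtain ⟨z, hz, hz1, hz2⟩ := hx h hh
  rw [Finset.sum_eq_single z]
  · rw [if_pos hz]
  · intro w _ hw
    rw [if_neg]
    intro h2
    rw [hz] at h2
    exact hw (by exact_mod_cast h2.symm)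
  · intro h2
    exact absurd (Finset.mem_Icc.mpr ⟨hz1, hz2⟩) h2

lemma comp_eq_zero {α : H → ℚ} {N : ℕ} {x : MonoidAlgebra R H} (hx : Dg α N x) {z : ℤ}
    (hz : z < -(N : ℤ) ∨ (N : ℤ) < z) : comp R α z x = 0 := by
  have h1 : comp R α z x = ex (k := R) (fun _ => (0 : MonoidAlgebra R H)) x := by
    refine ex_congr' _ _ x fun h hh => ?_
    obtain ⟨w, hw, hw1, hw2⟩ := hx h hh
    rw [if_neg]
    intro h2
    rw [hw] at h2
    have h3 : w = z := by exact_mod_cast h2
    omega
  rw [h1, ex_eq_sum]
  exact Finset.sum_eq_zero fun f _ => smul_zero _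

/-- convolution -/
lemma comp_mul {α : H → ℚ} (hα : ∀ x y, α (x * y) = α x + α y) {N : ℕ} {x : MonoidAlgebra R H}
    (hx : Dg α N x) (y : MonoidAlgebra R H) (z : ℤ) :
    comp R α z (x * y) = ∑ w ∈ Finset.Icc (-(N : ℤ)) N, comp R α w x * comp R α (z - w) y := by
  conv_lhs => rw [← sum_comp hx, Finset.sum_mul, map_sum]
  exact Finset.sum_congr rfl fun w _ => comp_comp_mul hα _ _ _ _

/-- components of components -/
lemma comp_comp (α : H → ℚ) (z w : ℤ) (x : MonoidAlgebra R H) :
    comp R α z (comp R α w x) = if z = w then comp R α w x else 0 := by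
  induction x using MonoidAlgebra.induction_linear with
  | zero => simp
  | add x x' h h' =>
    rw [map_add, map_add, h, h']
    split_ifs <;> simp
  | single g r =>
    rw [comp_single]
    split_ifs with h1 h2
    · rw [comp_single, if_pos (by rw [h1, h2])]
    · rw [comp_single, if_neg]
      intro h3
      rw [h1] at h3
      exact h2 (by exact_mod_cast h3.symm)
    · simp
    · simp


lemma comp_homog_single {α : H → ℚ} (z : ℤ) (h : H) (r : R) :
    comp R α z (MonoidAlgebra.single h r) =
      if (z : ℚ) = α h then MonoidAlgebra.single h r else 0 := by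
  rw [comp_single]
  by_cases h1 : α h = z
  · rw [if_pos h1, if_pos h1.symm]
  · rw [if_neg h1, if_neg (Ne.symm h1)]

/-- `x` is supported in degree `q` -/
def Hq (α : H → ℚ) (q : ℚ) (x : MonoidAlgebra R H) : Prop := ∀ h, x.coeff h ≠ 0 → α h = q

lemma Hq_comp {α : H → ℚ} {q : ℚ} {x : MonoidAlgebra R H} (hx : Hq α q x) (z : ℤ) :
    comp R α z x = if q = z then x else 0 := by
  by_cases h1 : q = z
  · rw [if_pos h1]
    conv_rhs => rw [← ex_id x]
    refine ex_congr' _ _ x fun h hh => ?_
    rw [if_pos ((hx h hh).trans h1)]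
  · rw [if_neg h1]
    have h2 : comp R α z x = ex (k := R) (fun _ => (0 : MonoidAlgebra R H)) x := by
      refine ex_congr' _ _ x fun h hh => ?_
      rw [if_neg]
      intro h3
      exact h1 ((hx h hh).symm.trans h3)
    rw [h2, ex_eq_sum]
    exact Finset.sum_eq_zero fun f _ => smul_zero _

lemma Hq_mul {α : H → ℚ} (hα : ∀ x y, α (x * y) = α x + α y) {q q' : ℚ}
    {x y : MonoidAlgebra R H} (hx : Hq α q x) (hy : Hq α q' y) : Hq α (q + q') (x * y) := by
  classical
  intro h hh
  have h1 : x * y = ∑ f ∈ x.coeff.support, ∑ g ∈ y.coeff.support,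
      MonoidAlgebra.single (f * g) (x.coeff f * y.coeff g) := by
    have e1 : ∀ x : MonoidAlgebra R H, x = ∑ f ∈ x.coeff.support,
        MonoidAlgebra.single f (x.coeff f) := by
      intro x
      conv_lhs => rw [← ex_id x, ex_eq_sum]
      exact Finset.sum_congr rfl fun f _ => (single_eq_smul f _).symm
    conv_lhs => rw [e1 x, e1 y, Finset.sum_mul_sum]
    exact Finset.sum_congr rfl fun f _ => Finset.sum_congr rfl fun g _ =>
      MonoidAlgebra.single_mul_single _ _ _ _
  rw [h1, MonoidAlgebra.coeff_sum, Finset.sum_apply'] at hh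
  obtain ⟨f, hf, hf'⟩ := Finset.exists_ne_zero_of_sum_ne_zero hh
  rw [MonoidAlgebra.coeff_sum, Finset.sum_apply'] at hf'
  obtain ⟨g, hg, hg'⟩ := Finset.exists_ne_zero_of_sum_ne_zero hf'
  have h2 : f * g = h := by
    by_contra hne
    apply hg'
    simp [hne]
  rw [← h2, hα, hx f (Finsupp.mem_support_iff.mp hf), hy g (Finsupp.mem_support_iff.mp hg)]

lemma comp_mem {α : H → ℚ} (hα : ∀ x y, α (x * y) = α x + α y) {A : Subgroup H}
    (hA : ∀ a ∈ A, α a = 0) (n : ℕ) (z : ℤ) {x : MonoidAlgebra R H} (hx : x ∈ (DB R A) ^ n) :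
    comp R α z x ∈ (DB R A) ^ n := by
  have h0 : α 1 = 0 := hA 1 A.one_mem
  set S : Set (MonoidAlgebra R H) := {x | ∃ h : H, ∃ b ∈ A,
    MonoidAlgebra.single h 1 - MonoidAlgebra.single (h * b) 1 = x} with hS
  have h1 : ∀ n : ℕ, ∀ y ∈ S ^ n, ∃ q, Hq α q y := by
    intro n
    induction n with
    | zero =>
      intro y hy
      rw [pow_zero, Set.mem_one] at hy
      subst hy
      refine ⟨0, fun h hh => ?_⟩
      have h2 : h = 1 := by
        by_contra hne
        apply hh
        rw [MonoidAlgebra.one_def]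
        simp [Ne.symm hne]
      rw [h2, h0]
    | succ n ih =>
      intro y hy
      rw [pow_succ] at hy
      obtain ⟨a, ha, b, ⟨h, c, hc, rfl⟩, rfl⟩ := hy
      obtain ⟨q, hq⟩ := ih a ha
      refine ⟨q + α h, Hq_mul hα hq ?_⟩
      intro g hg
      by_contra hne
      apply hg
      have e1 : g ≠ h := fun h2 => hne (by rw [h2])
      have e2 : g ≠ h * c := fun h2 => hne (by rw [h2, hα, hA c hc, add_zero])
      simp [Ne.symm e1, Ne.symm e2]
  unfold DB at hx ⊢
  rw [← hS] at hx ⊢
  rw [Submodule.span_pow] at hx ⊢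
  refine Submodule.span_induction ?_ ?_ ?_ ?_ hx
  · intro y hy
    obtain ⟨q, hq⟩ := h1 n y hy
    rw [Hq_comp hq]
    split_ifs
    · exact Submodule.subset_span hy
    · exact Submodule.zero_mem _
  · rw [map_zero]; exact Submodule.zero_mem _
  · intro x y _ _ hx hy
    rw [map_add]
    exact Submodule.add_mem _ hx hy
  · intro r x _ hx
    rw [map_smul]
    exact Submodule.smul_mem _ _ hx

end Pool.Agent.W643.CE
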