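import Pool.Agent.W643.CE.Central
import Pool.Agent.H23R2.Fin

/-!
# The core: integral functionals
-/

set_option autoImplicit false
set_option linter.unusedSectionVars false

namespace Pool.Agent.W643.CE

open Finset Pool.Agent.H23R2 Pool.Agent.H23R2.Ch Pool.Agent.H23R2.Cyc

variable {R : Type*} [CommRing R] {H : Type*} [Group H] {d : Type*} [Fintype d] [DecidableEq d]

lemma tf_eq_supp (Φ : H → R) (X : Matrix d d (MonoidAlgebra R H)) :
    tf Φ X = ∑ s : {g // g ∈ msupp X}, (cm X s.1).trace * Φ s.1 := by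
  conv_lhs => rw [eq_sum_io X]
  rw [map_sum]
  exact Finset.sum_congr rfl fun s _ => tf_io Φ _ _

lemma tf_congr {Φ Ψ : H → R} (X : Matrix d d (MonoidAlgebra R H))
    (h : ∀ g ∈ msupp X, Φ g = Ψ g) : tf Φ X = tf Ψ X := by
  rw [tf_eq_supp, tf_eq_supp]
  exact Finset.sum_congr rfl fun s _ => by rw [h s.1 s.2]

/-- all the positive powers have the same trace -/
lemma tf_pow_eq {Φ : H → R} {X : Matrix d d (MonoidAlgebra R H)}
    (h : ∀ (x : MonoidAlgebra R H) (i j : d), ex (k := R) Φ (x * (X * X - X) i j) = 0) (q : ℕ) :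
    tf Φ (X ^ (q + 1)) = tf Φ X := by
  induction q with
  | zero => rw [zero_add, pow_one]
  | succ q ih =>
    have h1 : X ^ (q + 1 + 1) = X ^ q * (X * X - X) + X ^ (q + 1) := by
      rw [pow_succ, pow_succ]
      noncomm_ring
    rw [h1, map_add, ih, add_eq_right, tf_apply]
    refine Finset.sum_eq_zero fun i _ => ?_
    rw [Matrix.mul_apply, map_sum]
    exact Finset.sum_eq_zero fun j _ => h _ _ _

/-- lifting to the ring of coefficients -/
lemma exists_lift {K : Type*} [CommRing K] (k0 : Subring K) (x : MonoidAlgebra K H)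
    (hx : ∀ g, x.coeff g ∈ k0) :
    ∃ y : MonoidAlgebra k0 H, MonoidAlgebra.mapRingHom H k0.subtype y = x := by
  refine ⟨∑ g ∈ x.coeff.support, MonoidAlgebra.single g ⟨x.coeff g, hx g⟩, ?_⟩
  rw [map_sum]
  apply MonoidAlgebra.coeff_injective
  ext h
  rw [MonoidAlgebra.coeff_sum, Finset.sum_apply']
  by_cases hh : h ∈ x.coeff.support
  · rw [Finset.sum_eq_single h]
    · simp
    · intro g _ hgh
      simp [hgh]
    · intro h'; exact absurd hh h'
  · rw [Finset.sum_eq_zero]
    · by_contra hne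
      exact hh (Finsupp.mem_support_iff.mpr (Ne.symm hne))
    · intro g hg
      have : g ≠ h := fun e => hh (e ▸ hg)
      simp [this]

lemma ex_map {K : Type*} [CommRing K] (f : R →+* K) (Φ : H → R) (y : MonoidAlgebra R H) :
    f (ex (k := R) Φ y) = ex (k := K) (fun h => f (Φ h)) (MonoidAlgebra.mapRingHom H f y) := by
  induction y using MonoidAlgebra.induction_linear with
  | zero => simp
  | add x y hx hy => rw [map_add, map_add, map_add, map_add, hx, hy]
  | single g r =>
    rw [ex_single, smul_eq_mul, map_mul]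
    rw [show MonoidAlgebra.mapRingHom H f (MonoidAlgebra.single g r) =
      MonoidAlgebra.single g (f r) by simp]
    rw [ex_single, smul_eq_mul]

lemma tf_map {K : Type*} [CommRing K] (f : R →+* K) (Φ : H → R)
    (X : Matrix d d (MonoidAlgebra R H)) :
    f (tf Φ X) = tf (k := K) (fun h => f (Φ h)) ((MonoidAlgebra.mapRingHom H f).mapMatrix X) := by
  rw [tf_apply, tf_apply, map_sum]
  exact Finset.sum_congr rfl fun i _ => ex_map f Φ _

/-- the exceptional primes -/
lemma finite_bad (B : Subgroup H) (W : Finset H) :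
    {p : ℕ | p.Prime ∧ ∃ w ∈ W, w ∉ B ∧ w ^ p ∈ B}.Finite := by
  have h1 : {p : ℕ | p.Prime ∧ ∃ w ∈ W, w ∉ B ∧ w ^ p ∈ B} ⊆
      ⋃ w ∈ W, {p : ℕ | p.Prime ∧ w ∉ B ∧ w ^ p ∈ B} := by
    rintro p ⟨hp, w, hw, h⟩
    exact Set.mem_biUnion hw ⟨hp, h⟩
  refine (Set.Finite.biUnion W.finite_toSet fun w _ => ?_).subset h1
  refine Set.Subsingleton.finite ?_
  rintro p ⟨hp, hw, hpw⟩ q ⟨hq, _, hqw⟩
  by_contra hne
  apply hw
  have hco : Nat.Coprime p q := (Nat.coprime_primes hp hq).mpr hne
  have h2 := Nat.gcd_eq_gcd_ab p q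
  rw [hco] at h2
  have h3 : w = (w ^ p) ^ (Nat.gcdA p q) * (w ^ q) ^ (Nat.gcdB p q) := by
    rw [← zpow_natCast, ← zpow_natCast, ← zpow_mul, ← zpow_mul, ← zpow_add, ← h2]
    simp
  rw [h3]
  exact B.mul_mem (B.zpow_mem hpw _) (B.zpow_mem hqw _)

lemma add_pow_mul {B : Subgroup H} {ν : H → ℤ} (hν : ∀ a ∈ B, ∀ b ∈ B, ν (a * b) = ν a + ν b)
    {w : H} (hw : w ∈ B) (m : ℕ) : ν (w ^ m) = m * ν w := by
  have h0 : ν 1 = 0 := by
    have := hν 1 B.one_mem 1 B.one_mem
    rw [mul_one] at this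
    omega
  induction m with
  | zero => simp [h0]
  | succ m ih =>
    rw [pow_succ, hν _ (B.pow_mem hw m) _ hw, ih]
    push_cast
    ring

/-- **The integral core.** -/
theorem core_int {K : Type*} [Field K] [CharZero K] {B : Subgroup H}
    (hB : ∀ b ∈ B, ∀ h : H, b * h = h * b) {m n : ℕ} (hm : 1 ≤ m) (hmn : m ≤ n)
    (ν : Fin m → H → ℤ) (hν : ∀ i, ∀ a ∈ B, ∀ b ∈ B, ν i (a * b) = ν i a + ν i b)
    (E : Matrix d d (MonoidAlgebra K H))
    (hE : ∀ i j, (E * E - E) i j ∈ (DB K B) ^ (n + 1)) :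
    tf (k := K) (Ph B (fun i h => (ν i h : K)) univ) E = 0 := by
  classical
  by_contra hne
  set x := tf (k := K) (Ph B (fun i h => (ν i h : K)) univ) E with hx
  -- all powers have the same trace
  have hpow : ∀ q : ℕ, tf (k := K) (Ph B (fun i h => (ν i h : K)) univ) (E ^ (q + 1)) = x := by
    intro q
    refine tf_pow_eq (fun y i j => ?_) q
    refine ex_pow_zero hB (μ := fun i h => (ν i h : K)) ?_ (n + 1) univ ?_ y (hE i j)
    · intro i a ha b hb
      rw [hν i a ha b hb]
      push_cast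
      rfl
    · rw [Finset.card_univ, Fintype.card_fin]
      omega
  -- the ring of coefficients
  let s : Finset K := (univ : Finset d).biUnion fun i => (univ : Finset d).biUnion fun j =>
    (msupp E).image fun g => (E i j).coeff g
  let k0 : Subring K := (Algebra.adjoin ℤ (s : Set K)).toSubring
  have hk0 : ∀ i j g, (E i j).coeff g ∈ k0 := by
    intro i j g
    by_cases hg : (E i j).coeff g = 0
    · rw [hg]; exact k0.zero_mem
    · apply Algebra.subset_adjoin
      simp only [s, Finset.coe_biUnion, Set.mem_iUnion, Finset.mem_coe,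
        Finset.mem_univ, Finset.mem_image]
      exact ⟨i, trivial, j, trivial, g, mem_msupp E i j g hg, rfl⟩
  choose E0 hE0 using fun i j => exists_lift k0 (E i j) (hk0 i j)
  have hE0' : (MonoidAlgebra.mapRingHom H k0.subtype).mapMatrix (Matrix.of E0) = E := by
    ext1 i j
    exact hE0 i j
  let Φ : H → k0 := Ph B (fun i h => ((ν i h : ℤ) : k0)) univ
  have hΦ : (fun h => k0.subtype (Φ h)) = Ph B (fun i h => (ν i h : K)) univ := by
    funext h
    simp only [Φ, Ph]
    split_ifs
    · rw [map_prod]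
      exact Finset.prod_congr rfl fun i _ => map_intCast _ _
    · exact map_zero _
  have hval : ∀ q : ℕ, k0.subtype (tf Φ ((Matrix.of E0) ^ (q + 1))) = x := by
    intro q
    rw [tf_map, map_pow, hE0', hΦ, hpow]
  have hinj : Function.Injective k0.subtype := k0.subtype_injective
  -- good primes divide
  have hgood : ∀ p : ℕ, p.Prime → (¬ ∃ w ∈ msupp (Matrix.of E0), w ∉ B ∧ w ^ p ∈ B) →
      ∃ y ∈ Algebra.adjoin ℤ (s : Set K), x = (p : K) * y := by
    intro p hp hbad
    obtain ⟨y, hy⟩ := tf_div hp Φ (Ph_comm hB _ _) (Matrix.of E0) (by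
      apply hinj
      have h1 := hval (p - 1)
      have h2 := hval 0
      rw [Nat.sub_add_cancel hp.one_lt.le] at h1
      rw [zero_add, pow_one] at h2
      rw [h1, h2]) (by
      intro w hw
      by_cases hwp : w ^ p ∈ B
      · have hwB : w ∈ B := by
          by_contra hwB
          exact hbad ⟨w, hw, hwB, hwp⟩
        have h3 : Φ (w ^ p) = ∏ i : Fin m, ((p : k0) * ((ν i w : ℤ) : k0)) := by
          simp only [Φ, Ph]
          rw [if_pos hwp]
          refine Finset.prod_congr rfl fun i _ => ?_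
          rw [add_pow_mul (hν i) hwB]
          push_cast
          rfl
        rw [h3, Finset.prod_mul_distrib, Finset.prod_const, Finset.card_univ, Fintype.card_fin]
        obtain ⟨m', rfl⟩ := Nat.exists_eq_add_of_le' hm
        exact ⟨(p : k0) ^ m' * ∏ i : Fin (m' + 1), ((ν i w : ℤ) : k0), by rw [pow_succ]; ring⟩
      · refine ⟨0, ?_⟩
        simp only [Φ, Ph]
        rw [if_neg hwp, mul_zero])
    refine ⟨y, y.2, ?_⟩
    have h2 := hval 0
    rw [zero_add, pow_one, ← hy, map_mul, map_natCast] at h2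
    exact h2.symm
  have hfin1 := finite_bad B (msupp (Matrix.of E0))
  have hfin2 := finite_dvd_primes s x hne
  have hinf : {p : ℕ | p.Prime}.Infinite := Nat.infinite_setOfPred_prime
  apply hinf
  refine (hfin1.union hfin2).subset ?_
  intro p hp
  by_cases hbad : ∃ w ∈ msupp (Matrix.of E0), w ∉ B ∧ w ^ p ∈ B
  · exact Or.inl ⟨hp, hbad⟩
  · exact Or.inr ⟨hp, hgood p hp hbad⟩

end Pool.Agent.W643.CE
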