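import Pool.Agent.W643.CE.Ker

/-!
# The central extension of a two-cocycle and the explicit formula in degree two
-/

set_option autoImplicit false
set_option linter.unusedSectionVars false

namespace Pool.Agent.W643.CE

open Finset Pool.Agent.H23R2 Pool.Agent.H23R2.Ch Pool.Agent.H23R2.Cyc

/-- normalised two-cocycles -/
structure Nc (K G : Type*) [AddCommGroup K] [Group G] where
  c : G → G → K
  coc : ∀ x y z, c x y + c (x * y) z = c y z + c x (y * z)
  norm : c 1 1 = 0

namespace Nc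

variable {K G : Type*} [AddCommGroup K] [Group G] (f : Nc K G)

lemma one_left (x : G) : f.c 1 x = 0 := by
  have h := f.coc 1 1 x
  rw [one_mul, one_mul, f.norm, zero_add] at h
  exact left_eq_add.mp h

lemma one_right (x : G) : f.c x 1 = 0 := by
  have h := f.coc x 1 1
  rw [mul_one, mul_one, f.norm, zero_add] at h
  exact add_eq_right.mp h

lemma inv_comm (x : G) : f.c x⁻¹ x = f.c x x⁻¹ := by
  have h := f.coc x x⁻¹ x
  rw [mul_inv_cancel, inv_mul_cancel, f.one_left, f.one_right, add_zero, add_zero] at h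
  exact h.symm

end Nc

/-- the central extension of a normalised two-cocycle -/
@[ext] structure CExt {K G : Type*} [AddCommGroup K] [Group G] (f : Nc K G) where
  a : K
  g : G

namespace CExt

variable {K G : Type*} [AddCommGroup K] [Group G] {f : Nc K G}

instance : Mul (CExt f) := ⟨fun x y => ⟨x.a + y.a + f.c x.g y.g, x.g * y.g⟩⟩
instance : One (CExt f) := ⟨⟨0, 1⟩⟩
instance : Inv (CExt f) := ⟨fun x => ⟨- x.a - f.c x.g⁻¹ x.g, x.g⁻¹⟩⟩

@[simp] lemma mul_a (x y : CExt f) : (x * y).a = x.a + y.a + f.c x.g y.g := rfl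
@[simp] lemma mul_g (x y : CExt f) : (x * y).g = x.g * y.g := rfl
@[simp] lemma one_a : (1 : CExt f).a = 0 := rfl
@[simp] lemma one_g : (1 : CExt f).g = 1 := rfl
@[simp] lemma inv_a (x : CExt f) : (x⁻¹).a = - x.a - f.c x.g⁻¹ x.g := rfl
@[simp] lemma inv_g (x : CExt f) : (x⁻¹).g = x.g⁻¹ := rfl

instance : Group (CExt f) := Group.ofLeftAxioms
  (by
    intro x y z
    ext
    · simp only [mul_a, mul_g]
      have h := f.coc x.g y.g z.g
      rw [show x.a + y.a + f.c x.g y.g + z.a + f.c (x.g * y.g) z.g =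
        x.a + y.a + z.a + (f.c x.g y.g + f.c (x.g * y.g) z.g) by abel, h]
      abel
    · simp only [mul_g, mul_assoc])
  (by
    intro x
    ext
    · simp only [mul_a, one_a, one_g, f.one_left, zero_add, add_zero]
    · simp only [mul_g, one_g, one_mul])
  (by
    intro x
    ext
    · simp only [mul_a, inv_a, inv_g, one_a]
      abel
    · simp only [mul_g, inv_g, inv_mul_cancel, one_g])

/-- the projection -/
def proj (f : Nc K G) : CExt f →* G where
  toFun x := x.g
  map_one' := rfl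
  map_mul' _ _ := rfl

@[simp] lemma proj_apply (x : CExt f) : proj f x = x.g := rfl

lemma proj_surj : Function.Surjective (proj f) := fun g => ⟨⟨0, g⟩, rfl⟩

lemma mem_ker (x : CExt f) : x ∈ (proj f).ker ↔ x.g = 1 := Iff.rfl

lemma central : ∀ x ∈ (proj f).ker, ∀ y : CExt f, x * y = y * x := by
  intro x hx y
  rw [mem_ker] at hx
  ext
  · simp only [mul_a, hx, f.one_left, f.one_right]
    abel
  · simp only [mul_g, hx, one_mul, mul_one]

end CExt

variable {K : Type*} {G : Type*} [Group G] {d : Type*} [Fintype d] [DecidableEq d]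

lemma eq_sum_io' [CommRing K] (X : Matrix d d (MonoidAlgebra K G)) (S : Finset G)
    (hS : ∀ i j g, (X i j).coeff g ≠ 0 → g ∈ S) :
    X = ∑ g ∈ S, io (cm X g) g := by
  ext1 i j
  rw [Matrix.sum_apply]
  simp only [io, Matrix.map_apply, cm, Matrix.of_apply]
  apply MonoidAlgebra.coeff_injective
  ext h
  rw [MonoidAlgebra.coeff_sum, Finset.sum_apply']
  by_cases hh : h ∈ S
  · rw [Finset.sum_eq_single h]
    · simp
    · intro g _ hgh
      simp [hgh]
    · intro h'; exact absurd hh h'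
  · rw [Finset.sum_eq_zero]
    · by_contra hne
      exact hh (hS i j h hne)
    · intro g hg
      have : g ≠ h := fun e => hh (e ▸ hg)
      simp [this]

lemma cm_zero [CommRing K] (X : Matrix d d (MonoidAlgebra K G)) (S : Finset G)
    (hS : ∀ i j g, (X i j).coeff g ≠ 0 → g ∈ S) {g : G} (hg : g ∉ S) : cm X g = 0 := by
  ext1 i j
  by_contra h
  exact hg (hS i j g h)

open Classical in
lemma cm_io [CommRing K] (A : Matrix d d K) (g x : G) :
    cm (io A g) x = if g = x then A else 0 := by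
  ext1 i j
  simp only [cm, io, Matrix.of_apply, Matrix.map_apply]
  split_ifs with h
  · simp [h]
  · simp [h]

/-- the coefficient matrix as an additive map -/
def cmAdd [CommRing K] (x : G) : Matrix d d (MonoidAlgebra K G) →+ Matrix d d K where
  toFun X := cm X x
  map_zero' := by ext1 i j; simp [cm]
  map_add' X Y := by ext1 i j; simp [cm]

open Classical in
lemma cm_mul [CommRing K] (X Y : Matrix d d (MonoidAlgebra K G)) (S : Finset G)
    (hX : ∀ i j g, (X i j).coeff g ≠ 0 → g ∈ S) (hY : ∀ i j g, (Y i j).coeff g ≠ 0 → g ∈ S)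
    (x : G) :
    cm (X * Y) x = ∑ g ∈ S, ∑ h ∈ S, if g * h = x then cm X g * cm Y h else 0 := by
  have h1 : X * Y = ∑ g ∈ S, ∑ h ∈ S, io (cm X g * cm Y h) (g * h) := by
    conv_lhs => rw [eq_sum_io' X S hX, eq_sum_io' Y S hY]
    rw [Finset.sum_mul_sum]
    exact Finset.sum_congr rfl fun g _ => Finset.sum_congr rfl fun h _ => io_mul _ _ _ _
  have h2 : cm (X * Y) x = cmAdd x (∑ g ∈ S, ∑ h ∈ S, io (cm X g * cm Y h) (g * h)) := by
    rw [← h1]; rfl
  rw [h2, map_sum]
  refine Finset.sum_congr rfl fun g _ => ?_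
  rw [map_sum]
  exact Finset.sum_congr rfl fun h _ => cm_io _ _ _

lemma push_io [CommRing K] {H : Type*} [Group H] (π : H →* G) (A : Matrix d d K) (h : H) :
    push K π (io A h) = io A (π h) := by
  ext1 i j
  simp [push, io]

/-- the combined statement -/
theorem comb [Field K] {H : Type*} [Group H]
    (hK : CharZero K ∨ ∃ p : ℕ, p.Prime ∧ CharP K p ∧ ∀ g : G, g ^ p = 1 → g = 1)
    (π : H →* G) (hπ : ∀ a ∈ π.ker, ∀ h : H, a * h = h * a) {m n : ℕ} (hm : 1 ≤ m) (hmn : m ≤ n)
    (μ : Fin m → π.ker → K) (hμ : ∀ i a b, μ i (a * b) = μ i a + μ i b)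
    (E : Matrix d d (MonoidAlgebra K H))
    (hE : ∀ i j, (E * E - E) i j ∈ (Kern K π) ^ (n + 1)) :
    ∑ᶠ a : π.ker, E.trace.coeff (a : H) * ∏ i, μ i a = 0 := by
  classical
  rw [finsum_eq_tf]
  rw [Kern_eq] at hE
  have hμ' : ∀ i, ∀ a ∈ π.ker, ∀ b ∈ π.ker,
      (fun i h => if hh : h ∈ π.ker then μ i ⟨h, hh⟩ else 0) i (a * b) =
      (fun i h => if hh : h ∈ π.ker then μ i ⟨h, hh⟩ else 0) i a +
      (fun i h => if hh : h ∈ π.ker then μ i ⟨h, hh⟩ else 0) i b := by
    intro i a ha b hb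
    simp only [dif_pos ha, dif_pos hb, dif_pos (π.ker.mul_mem ha hb)]
    exact hμ i ⟨a, ha⟩ ⟨b, hb⟩
  rcases hK with h0 | ⟨p, hp, hKp, hG⟩
  · exact main hπ hm hmn _ hμ' E hE
  · refine main_charP hp (CharP.cast_eq_zero K p) hπ ?_ hm hmn _ hμ' E hE
    intro h hh
    rw [MonoidHom.mem_ker] at hh ⊢
    rw [map_pow] at hh
    exact hG _ hh

open Classical in
/-- the formula in degree two -/
theorem degree_two [Field K]
    (hK : CharZero K ∨ ∃ p : ℕ, p.Prime ∧ CharP K p ∧ ∀ g : G, g ^ p = 1 → g = 1)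
    (e : Matrix d d (MonoidAlgebra K G)) (he : e * e = e)
    (c : G → G → K) (hc : ∀ x y z, c x y + c (x * y) z = c y z + c x (y * z)) (h1 : c 1 1 = 0)
    (S : Finset G) (hS : ∀ i j g, (e i j).coeff g ≠ 0 → g ∈ S) :
    ∑ g ∈ S, (cm e g * cm e g⁻¹).trace * c g g⁻¹ =
      2 * ∑ g ∈ S, ∑ h ∈ S, (cm e g * cm e h * cm e (g * h)⁻¹).trace * c g h := by
  let f : Nc K G := ⟨c, hc, h1⟩
  set X : Matrix d d (MonoidAlgebra K (CExt f)) := ∑ g ∈ S, io (cm e g) (⟨0, g⟩ : CExt f) with hX
  have hXe : push K (CExt.proj f) X = e := by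
    rw [push_eq, hX, map_sum]
    conv_rhs => rw [eq_sum_io' e S hS]
    refine Finset.sum_congr rfl fun g _ => ?_
    rw [← push_eq, push_io]
    rfl
  set Y := X - X * X with hY
  have hYI : ∀ i j, Y i j ∈ Kern K (CExt.proj f) := by
    have hY0 : push K (CExt.proj f) Y = 0 := by
      rw [push_eq] at hXe ⊢
      rw [hY, map_sub, map_mul, hXe, he, sub_self]
    intro i j
    rw [mem_Kern]
    exact congrFun (congrFun hY0 i) j
  set E : Matrix d d (MonoidAlgebra K (CExt f)) := 3 • (X * X) - 2 • (X * X * X) with hE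
  have hEI : ∀ i j, (E * E - E) i j ∈ (Kern K (CExt.proj f)) ^ (1 + 1) := by
    have h2 : E * E - E = (4 • (X * X) - 4 • X - 3 • 1) * (Y * Y) := by
      rw [hE, hY]
      noncomm_ring
    intro i j
    rw [h2, Matrix.mul_apply]
    refine Submodule.sum_mem _ fun l _ => mul_mem_Kern_pow 1 _ ?_
    rw [Matrix.mul_apply, pow_two]
    exact Submodule.sum_mem _ fun l' _ => Submodule.mul_mem_mul (hYI _ _) (hYI _ _)
  have hmain := comb hK (CExt.proj f) CExt.central (m := 1) (n := 1) le_rfl le_rfl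
    (fun _ a => (a : CExt f).a) (by
      intro _ a b
      show (a : CExt f).a + (b : CExt f).a + c (a : CExt f).g (b : CExt f).g = _
      have h3 : (a : CExt f).g = 1 := a.2
      rw [h3, show c 1 (b : CExt f).g = 0 from f.one_left _, add_zero]) E hEI
  rw [finsum_eq_tf] at hmain
  set Φ : CExt f → K := Ph (CExt.proj f).ker (fun (i : Fin 1) h =>
    if hh : h ∈ (CExt.proj f).ker then (fun _ a => (a : CExt f).a : Fin 1 → (CExt.proj f).ker → K)
      i ⟨h, hh⟩ else 0) univ with hΦ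
  have hΦv : ∀ x : CExt f, Φ x = if x.g = 1 then x.a else 0 := by
    intro x
    rw [hΦ]
    unfold Ph
    by_cases hx : x.g = 1
    · have hx' : x ∈ (CExt.proj f).ker := hx
      rw [if_pos hx', if_pos hx, Finset.prod_eq_single (0 : Fin 1)]
      · exact dif_pos hx'
      · intro i _ hi
        exact absurd (Subsingleton.elim i 0) hi
      · intro h; exact absurd (Finset.mem_univ _) h
    · have hx' : x ∉ (CExt.proj f).ker := hx
      rw [if_neg hx', if_neg hx]
  have hXX : tf Φ (X * X) = ∑ g ∈ S, (cm e g * cm e g⁻¹).trace * c g g⁻¹ := by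
    rw [hX, Finset.sum_mul_sum, map_sum]
    refine Finset.sum_congr rfl fun g _ => ?_
    rw [map_sum]
    have h3 : ∀ h ∈ S, tf Φ (io (cm e g) (⟨0, g⟩ : CExt f) * io (cm e h) (⟨0, h⟩ : CExt f)) =
        if h = g⁻¹ then (cm e g * cm e g⁻¹).trace * c g g⁻¹ else 0 := by
      intro h _
      rw [io_mul, tf_io, hΦv]
      have e1 : ((⟨0, g⟩ : CExt f) * ⟨0, h⟩).g = g * h := rfl
      have e2 : ((⟨0, g⟩ : CExt f) * ⟨0, h⟩).a = c g h := by
        show (0 : K) + 0 + c g h = _
        rw [add_zero, zero_add]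
      rw [e1, e2, smul_eq_mul]
      by_cases h4 : h = g⁻¹
      · rw [if_pos h4, if_pos (by rw [h4, mul_inv_cancel]), h4]
      · rw [if_neg h4, if_neg (fun h5 => h4 (eq_inv_of_mul_eq_one_right h5)), mul_zero]
    rw [Finset.sum_congr rfl h3, Finset.sum_ite_eq']
    split_ifs with h4
    · rfl
    · rw [cm_zero e S hS h4, mul_zero, Matrix.trace_zero, zero_mul]
  have hXXX : tf Φ (X * X * X) = ∑ g ∈ S, ∑ h ∈ S,
      (cm e g * cm e h * cm e (g * h)⁻¹).trace * (c g h + c (g * h) (g * h)⁻¹) := by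
    rw [hX, Finset.sum_mul_sum, Finset.sum_mul, map_sum]
    refine Finset.sum_congr rfl fun g _ => ?_
    rw [Finset.sum_mul, map_sum]
    refine Finset.sum_congr rfl fun h _ => ?_
    rw [Finset.mul_sum, map_sum]
    have h3 : ∀ k ∈ S, tf Φ (io (cm e g) (⟨0, g⟩ : CExt f) * io (cm e h) (⟨0, h⟩ : CExt f) *
        io (cm e k) (⟨0, k⟩ : CExt f)) =
        if k = (g * h)⁻¹ then (cm e g * cm e h * cm e (g * h)⁻¹).trace *
          (c g h + c (g * h) (g * h)⁻¹) else 0 := by
      intro k _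
      rw [io_mul, io_mul, tf_io, hΦv]
      have e1 : ((⟨0, g⟩ : CExt f) * ⟨0, h⟩ * ⟨0, k⟩).g = g * h * k := rfl
      have e2 : ((⟨0, g⟩ : CExt f) * ⟨0, h⟩ * ⟨0, k⟩).a = c g h + c (g * h) k := by
        show (0 : K) + 0 + c g h + 0 + c (g * h) k = _
        rw [add_zero, add_zero, zero_add]
      rw [e1, e2, smul_eq_mul]
      by_cases h4 : k = (g * h)⁻¹
      · rw [if_pos h4, if_pos (by rw [h4, mul_inv_cancel]), h4]
      · rw [if_neg h4, if_neg (fun h5 => h4 (eq_inv_of_mul_eq_one_right h5)), mul_zero]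
    rw [Finset.sum_congr rfl h3, Finset.sum_ite_eq']
    split_ifs with h4
    · rfl
    · rw [cm_zero e S hS h4, mul_zero, Matrix.trace_zero, zero_mul]
  -- the second part of the last sum
  have hlast : ∑ g ∈ S, ∑ h ∈ S,
      (cm e g * cm e h * cm e (g * h)⁻¹).trace * c (g * h) (g * h)⁻¹ =
      ∑ g ∈ S, (cm e g * cm e g⁻¹).trace * c g g⁻¹ := by
    have h3 : ∀ k ∈ S, (cm e k * cm e k⁻¹).trace * c k k⁻¹ =
        ∑ g ∈ S, ∑ h ∈ S, if k = (g * h)⁻¹ then
          (cm e g * cm e h * cm e k).trace * c k⁻¹ k else 0 := by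
      intro k _
      have h4 : cm e k⁻¹ = ∑ g ∈ S, ∑ h ∈ S, if g * h = k⁻¹ then cm e g * cm e h else 0 := by
        conv_lhs => rw [← he]
        exact cm_mul e e S hS hS _
      rw [show c k k⁻¹ = c k⁻¹ k from (f.inv_comm k).symm, Matrix.trace_mul_comm, h4,
        Finset.sum_mul, Matrix.trace_sum, Finset.sum_mul]
      refine Finset.sum_congr rfl fun g _ => ?_
      rw [Finset.sum_mul, Matrix.trace_sum, Finset.sum_mul]
      refine Finset.sum_congr rfl fun h _ => ?_
      by_cases h5 : g * h = k⁻¹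
      · rw [if_pos h5, if_pos (by rw [h5, inv_inv])]
      · rw [if_neg h5, if_neg (fun h6 => h5 (by rw [h6, inv_inv])), zero_mul, Matrix.trace_zero,
          zero_mul]
    rw [Finset.sum_congr rfl h3]
    symm
    rw [Finset.sum_comm]
    refine Finset.sum_congr rfl fun g _ => ?_
    rw [Finset.sum_comm]
    refine Finset.sum_congr rfl fun h _ => ?_
    rw [Finset.sum_ite_eq']
    split_ifs with h4
    · rw [inv_inv]
    · rw [cm_zero e S hS h4, mul_zero, Matrix.trace_zero, zero_mul]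
  have htot : 3 • tf Φ (X * X) - 2 • tf Φ (X * X * X) = 0 := by
    rw [← hmain, hE, map_sub, map_nsmul, map_nsmul]
  rw [hXX, hXXX] at htot
  have hsplit : ∑ g ∈ S, ∑ h ∈ S,
      (cm e g * cm e h * cm e (g * h)⁻¹).trace * (c g h + c (g * h) (g * h)⁻¹) =
      ∑ g ∈ S, ∑ h ∈ S, (cm e g * cm e h * cm e (g * h)⁻¹).trace * c g h +
      ∑ g ∈ S, (cm e g * cm e g⁻¹).trace * c g g⁻¹ := by
    rw [← hlast, ← Finset.sum_add_distrib]
    refine Finset.sum_congr rfl fun g _ => ?_
    rw [← Finset.sum_add_distrib]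
    exact Finset.sum_congr rfl fun h _ => mul_add _ _ _
  rw [hsplit] at htot
  simp only [nsmul_eq_mul, Nat.cast_ofNat] at htot
  linear_combination htot

end Pool.Agent.W643.CE
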