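import Pool.Agent.W643.CE.CharP
import Pool.Agent.H23R2.Ch.Lift

/-!
# The kernel of `K[H] → K[G]`, and lifting of idempotents
-/

set_option autoImplicit false
set_option linter.unusedSectionVars false

namespace Pool.Agent.W643.CE

open Finset Pool.Agent.H23R2 Pool.Agent.H23R2.Ch Pool.Agent.H23R2.Cyc

variable {R : Type*} [CommRing R] {H : Type*} [Group H] {G : Type*} [Group G]
  {d : Type*} [Fintype d] [DecidableEq d]

/-- the kernel of the map `R[H] → R[G]` induced by `π`, an `R`-submodule of `R[H]` -/
noncomputable def Kern (R : Type*) [CommRing R] {H : Type*} [Group H] {G : Type*} [Group G]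
    (π : H →* G) : Submodule R (MonoidAlgebra R H) :=
  LinearMap.ker (MonoidAlgebra.mapDomainAlgHom R R π).toLinearMap

lemma mem_Kern {π : H →* G} {x : MonoidAlgebra R H} :
    x ∈ Kern R π ↔ MonoidAlgebra.mapDomainAlgHom R R π x = 0 := Iff.rfl

lemma Kern_eq (π : H →* G) : Kern R π = DB R π.ker := by
  classical
  apply le_antisymm
  · intro x hx
    rw [mem_Kern] at hx
    -- a section of `π` on its image
    let s : G → H := fun g => if h : ∃ y, π y = g then h.choose else 1
    have hs : ∀ h : H, π (s (π h)) = π h := by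
      intro h
      have h1 : ∃ y, π y = π h := ⟨h, rfl⟩
      simp only [s, dif_pos h1]
      exact h1.choose_spec
    have h2 : ∀ x : MonoidAlgebra R H,
        x - ex (k := R) (fun g => MonoidAlgebra.single (s g) (1 : R))
          (MonoidAlgebra.mapDomainAlgHom R R π x) ∈ DB R π.ker := by
      intro x
      induction x using MonoidAlgebra.induction_linear with
      | zero => simp
      | add x y hx hy =>
        rw [map_add, map_add, add_sub_add_comm]
        exact Submodule.add_mem _ hx hy
      | single h r =>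
        have e1 : MonoidAlgebra.mapDomainAlgHom R R π (MonoidAlgebra.single h r) =
            MonoidAlgebra.single (π h) r := by simp
        rw [e1, ex_single, single_eq_smul h r, ← smul_sub]
        refine Submodule.smul_mem _ _ (Submodule.subset_span ⟨h, h⁻¹ * s (π h), ?_, ?_⟩)
        · rw [MonoidHom.mem_ker, map_mul, hs, map_inv, inv_mul_cancel]
        · rw [mul_inv_cancel_left]
    have h3 := h2 x
    rwa [hx, map_zero, sub_zero] at h3
  · refine Submodule.span_le.mpr ?_
    rintro x ⟨h, b, hb, rfl⟩
    rw [SetLike.mem_coe, mem_Kern, map_sub]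
    rw [MonoidHom.mem_ker] at hb
    simp [hb]

lemma mul_mem_Kern {π : H →* G} (x : MonoidAlgebra R H) {y : MonoidAlgebra R H}
    (hy : y ∈ Kern R π) : x * y ∈ Kern R π := by
  rw [mem_Kern] at hy ⊢
  rw [map_mul, hy, mul_zero]

lemma mul_mem_Kern_pow {π : H →* G} (n : ℕ) (x : MonoidAlgebra R H) {y : MonoidAlgebra R H}
    (hy : y ∈ (Kern R π) ^ (n + 1)) : x * y ∈ (Kern R π) ^ (n + 1) := by
  rw [pow_succ'] at hy ⊢
  refine Submodule.mul_induction_on hy ?_ ?_
  · intro u hu v hv
    rw [← mul_assoc]
    exact Submodule.mul_mem_mul (mul_mem_Kern x hu) hv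
  · intro u v h h'
    rw [mul_add]
    exact Submodule.add_mem _ h h'

/-- the induced map on matrices -/
noncomputable def push (R : Type*) [CommRing R] {H : Type*} [Group H] {G : Type*} [Group G]
    (π : H →* G) {d : Type*} (E : Matrix d d (MonoidAlgebra R H)) :
    Matrix d d (MonoidAlgebra R G) := E.map (MonoidAlgebra.mapDomainAlgHom R R π)

lemma push_eq (π : H →* G) (E : Matrix d d (MonoidAlgebra R H)) :
    push R π E = (MonoidAlgebra.mapDomainAlgHom R R π).toRingHom.mapMatrix E := rfl

/-- lifting of idempotent matrices modulo a power of the kernel -/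
theorem exists_lift_idem {π : H →* G} (hπ : Function.Surjective π)
    (e : Matrix d d (MonoidAlgebra R G)) (he : e * e = e) (n : ℕ) :
    ∃ E : Matrix d d (MonoidAlgebra R H), push R π E = e ∧
      ∀ i j, (E * E - E) i j ∈ (Kern R π) ^ (n + 1) := by
  have hsurj : ∀ y : MonoidAlgebra R G, ∃ x : MonoidAlgebra R H,
      MonoidAlgebra.mapDomainAlgHom R R π x = y := by
    intro y
    induction y using MonoidAlgebra.induction_linear with
    | zero => exact ⟨0, map_zero _⟩
    | add y z hy hz =>
      obtain ⟨a, rfl⟩ := hy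
      obtain ⟨b, rfl⟩ := hz
      exact ⟨a + b, map_add _ _ _⟩
    | single g r =>
      obtain ⟨h, rfl⟩ := hπ g
      exact ⟨MonoidAlgebra.single h r, by simp⟩
  choose E0 hE0 using fun i j => hsurj (e i j)
  set X0 : Matrix d d (MonoidAlgebra R H) := Matrix.of E0 with hX0
  have hX0e : push R π X0 = e := by
    ext1 i j
    exact hE0 i j
  set Y : Matrix d d (MonoidAlgebra R H) := X0 - X0 * X0 with hY
  have hY0 : push R π Y = 0 := by
    rw [push_eq] at hX0e ⊢
    rw [hY, map_sub, map_mul, hX0e, he, sub_self]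
  have hYI : ∀ i j, Y i j ∈ Kern R π := by
    intro i j
    rw [mem_Kern]
    exact congrFun (congrFun hY0 i) j
  have hYpow : ∀ m i j, (Y ^ m) i j ∈ (Kern R π) ^ m := by
    intro m
    induction m with
    | zero =>
      intro i j
      rw [pow_zero, pow_zero, Matrix.one_apply]
      split_ifs
      · exact Submodule.one_le.mp le_rfl
      · exact Submodule.zero_mem _
    | succ m ih =>
      intro i j
      rw [pow_succ, pow_succ, Matrix.mul_apply]
      exact Submodule.sum_mem _ fun l _ => Submodule.mul_mem_mul (ih i l) (hYI l j)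
  refine ⟨Ch.lp n X0, ?_, ?_⟩
  · rw [push_eq] at hX0e ⊢
    rw [Ch.lp_map, hX0e]
    -- `lp n e = e` for an idempotent
    unfold Ch.lp
    rw [he, sub_self, Finset.sum_eq_single 0]
    · rw [pow_zero, one_mul, Nat.choose_zero_right, one_smul]
      have h1 : ∀ m : ℕ, e ^ (m + 1) = e := by
        intro m
        induction m with
        | zero => rw [zero_add, pow_one]
        | succ m ih => rw [pow_succ, ih, he]
      exact h1 _
    · intro i _ hi
      rw [zero_pow hi, zero_mul, smul_zero]
    · intro h
      exact absurd (Finset.mem_range.mpr (Nat.succ_pos n)) h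
  · obtain ⟨Q, hQ⟩ := Ch.lp_ring n X0
    intro i j
    rw [hQ, Matrix.mul_apply]
    exact Submodule.sum_mem _ fun l _ => mul_mem_Kern_pow n _ (hYpow (n + 1) l j)

open Classical in
/-- the sum over the kernel as a functional -/
lemma finsum_eq_tf {π : H →* G} {m : ℕ} (μ : Fin m → π.ker → R)
    (E : Matrix d d (MonoidAlgebra R H)) :
    ∑ᶠ a : π.ker, E.trace.coeff (a : H) * ∏ i, μ i a =
      tf (k := R) (Ph π.ker (fun i h => if hh : h ∈ π.ker then μ i ⟨h, hh⟩ else 0) univ) E := by
  classical
  rw [tf_eq, ex_eq_sum]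
  have h1 : ∑ᶠ a : π.ker, E.trace.coeff (a : H) * ∏ i, μ i a =
      ∑ a ∈ E.trace.coeff.support.subtype (· ∈ π.ker),
        E.trace.coeff (a : H) * ∏ i, μ i a := by
    refine finsum_eq_sum_of_support_subset _ ?_
    intro a ha
    rw [Function.mem_support] at ha
    rw [Finset.mem_coe, Finset.mem_subtype, Finsupp.mem_support_iff]
    exact left_ne_zero_of_mul ha
  rw [h1]
  have h2 : ∀ f ∈ E.trace.coeff.support, E.trace.coeff f •
      Ph π.ker (fun i h => if hh : h ∈ π.ker then μ i ⟨h, hh⟩ else 0) univ f =
      if hf : f ∈ π.ker then E.trace.coeff f * ∏ i, μ i ⟨f, hf⟩ else 0 := by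
    intro f _
    by_cases hf : f ∈ π.ker
    · unfold Ph
      rw [if_pos hf, dif_pos hf, smul_eq_mul]
      congr 1
      exact Finset.prod_congr rfl fun i _ => dif_pos hf
    · unfold Ph
      rw [if_neg hf, dif_neg hf, smul_zero]
  rw [Finset.sum_congr rfl h2]
  rw [← Finset.sum_filter_add_sum_filter_not E.trace.coeff.support (· ∈ π.ker)]
  rw [Finset.sum_eq_zero (s := E.trace.coeff.support.filter (fun x => ¬ x ∈ π.ker))
    (fun f hf => dif_neg (Finset.mem_filter.mp hf).2), add_zero]
  symm
  refine Finset.sum_bij' (fun f hf => ⟨f, (Finset.mem_filter.mp hf).2⟩) (fun a _ => (a : H))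
    ?_ ?_ ?_ ?_ ?_
  · intro f hf
    rw [Finset.mem_subtype]
    exact (Finset.mem_filter.mp hf).1
  · intro a ha
    rw [Finset.mem_subtype] at ha
    exact Finset.mem_filter.mpr ⟨ha, a.2⟩
  · intro f _
    rfl
  · intro a _
    rfl
  · intro f hf
    exact dif_pos (Finset.mem_filter.mp hf).2

end Pool.Agent.W643.CE
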