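import Pool.Agent.W643.CE.Core

/-!
# Idempotents modulo a power of the ideal of a central subgroup
-/

set_option autoImplicit false
set_option linter.unusedSectionVars false

namespace Pool.Agent.W643.CE

open Finset Pool.Agent.H23R2 Pool.Agent.H23R2.Ch Pool.Agent.H23R2.Cyc

variable {H : Type*} [Group H] {d : Type*} [Fintype d] [DecidableEq d]

/-- finitely many additive functions on a finitely generated group are integral combinations of
finitely many scalars -/
lemma exists_coords {K : Type*} [Field K] [CharZero K] {B : Subgroup H} (hBfg : B.FG) {m : ℕ}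
    (μ : Fin m → H → K) (hμ : ∀ i, ∀ a ∈ B, ∀ b ∈ B, μ i (a * b) = μ i a + μ i b) :
    ∃ (r : ℕ) (κ : Fin r → K) (ν : Fin m → Fin r → H → ℤ),
      (∀ i j, ∀ a ∈ B, ∀ b ∈ B, ν i j (a * b) = ν i j a + ν i j b) ∧
      ∀ i, ∀ b ∈ B, μ i b = ∑ j, (ν i j b : K) * κ j := by
  classical
  obtain ⟨T, hT⟩ := hBfg
  have h1 : ∀ i, μ i 1 = 0 := by
    intro i
    have := hμ i 1 B.one_mem 1 B.one_mem
    rw [mul_one] at this
    exact left_eq_add.mp this
  let L : Submodule ℤ K := Submodule.span ℤ
    (((univ : Finset (Fin m)) ×ˢ T).image fun p => μ p.1 p.2 : Finset K)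
  have hL : ∀ i, ∀ b ∈ B, μ i b ∈ L := by
    intro i b hb
    have hcl : ∀ b (hb : b ∈ Subgroup.closure (T : Set H)), μ i b ∈ L := by
      intro b hb
      refine Subgroup.closure_induction (p := fun b _ => μ i b ∈ L) ?_ ?_ ?_ ?_ hb
      · intro x hx
        apply Submodule.subset_span
        rw [Finset.mem_coe, Finset.mem_image]
        exact ⟨(i, x), by simpa using hx, rfl⟩
      · rw [h1]; exact L.zero_mem
      · intro x y hx hy hx' hy'
        rw [hT] at hx hy
        rw [hμ i x hx y hy]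
        exact L.add_mem hx' hy'
      · intro x hx hx'
        rw [hT] at hx
        have h2 := hμ i x hx x⁻¹ (B.inv_mem hx)
        rw [mul_inv_cancel, h1] at h2
        have h3 : μ i x⁻¹ = - μ i x := (neg_eq_of_add_eq_zero_right h2.symm).symm
        rw [h3]
        exact L.neg_mem hx'
    exact hcl b (by rw [hT]; exact hb)
  have hfin : Module.Finite ℤ L := Module.Finite.span_of_finite ℤ (Finset.finite_toSet _)
  let bs := Module.finBasis ℤ L
  refine ⟨Module.finrank ℤ L, fun j => (bs j : K),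
    fun i j h => if hh : h ∈ B then bs.repr ⟨μ i h, hL i h hh⟩ j else 0, ?_, ?_⟩
  · intro i j a ha b hb
    simp only [dif_pos ha, dif_pos hb, dif_pos (B.mul_mem ha hb)]
    have h2 : (⟨μ i (a * b), hL i _ (B.mul_mem ha hb)⟩ : L) =
        ⟨μ i a, hL i a ha⟩ + ⟨μ i b, hL i b hb⟩ := Subtype.ext (hμ i a ha b hb)
    rw [h2, map_add, Finsupp.add_apply]
  · intro i b hb
    simp only [dif_pos hb]
    have h2 := bs.sum_repr ⟨μ i b, hL i b hb⟩
    have h3 := congrArg Subtype.val h2
    rw [AddSubmonoidClass.coe_finsetSum] at h3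
    refine h3.symm.trans ?_
    refine Finset.sum_congr rfl fun j _ => ?_
    rw [Submodule.coe_smul, zsmul_eq_mul]

/-- **Main theorem.** -/
theorem main {K : Type*} [Field K] [CharZero K] {A : Subgroup H}
    (hA : ∀ a ∈ A, ∀ h : H, a * h = h * a) {m n : ℕ} (hm : 1 ≤ m) (hmn : m ≤ n)
    (μ : Fin m → H → K) (hμ : ∀ i, ∀ a ∈ A, ∀ b ∈ A, μ i (a * b) = μ i a + μ i b)
    (E : Matrix d d (MonoidAlgebra K H))
    (hE : ∀ i j, (E * E - E) i j ∈ (DB K A) ^ (n + 1)) :
    tf (k := K) (Ph A μ univ) E = 0 := by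
  classical
  choose B hBA hBfg hB using fun i j => DB_pow_fg A (n + 1) (hE i j)
  -- the finitely generated subgroup
  let C : Subgroup H := (⨆ i, ⨆ j, B i j) ⊔ Subgroup.closure ((msupp E).filter (· ∈ A) : Finset H)
  have hCA : C ≤ A := by
    refine sup_le (iSup_le fun i => iSup_le fun j => hBA i j) ?_
    rw [Subgroup.closure_le]
    intro x hx
    exact (Finset.mem_filter.mp (Finset.mem_coe.mp hx)).2
  have hCfg : C.FG := by
    refine Subgroup.FG.sup ?_ ⟨_, rfl⟩
    exact Subgroup.FG.iSup _ fun i => Subgroup.FG.iSup _ fun j => hBfg i j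
  have hEC : ∀ i j, (E * E - E) i j ∈ (DB K C) ^ (n + 1) := by
    intro i j
    refine pow_le_pow_left' (DB_mono ?_) (n + 1) (hB i j)
    exact (le_iSup_of_le i (le_iSup_of_le j le_rfl)).trans le_sup_left
  have hsupp : ∀ g ∈ msupp E, Ph A μ univ g = Ph C μ univ g := by
    intro g hg
    by_cases hgA : g ∈ A
    · have hgC : g ∈ C := by
        refine (le_sup_right : _ ≤ C) (Subgroup.subset_closure ?_)
        exact Finset.mem_coe.mpr (Finset.mem_filter.mpr ⟨hg, hgA⟩)
      unfold Ph
      rw [if_pos hgA, if_pos hgC]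
    · have hgC : g ∉ C := fun h => hgA (hCA h)
      unfold Ph
      rw [if_neg hgA, if_neg hgC]
  rw [tf_congr E hsupp]
  have hC : ∀ b ∈ C, ∀ h : H, b * h = h * b := fun b hb => hA b (hCA hb)
  obtain ⟨r, κ, ν, hν, hνμ⟩ := exists_coords hCfg μ fun i a ha b hb =>
    hμ i a (hCA ha) b (hCA hb)
  have hexp : Ph C μ univ = fun h => ∑ J : Fin m → Fin r, (∏ i, κ (J i)) *
      Ph C (fun i h => ((ν i (J i) h : ℤ) : K)) univ h := by
    funext h
    by_cases hh : h ∈ C
    · unfold Ph
      simp only [if_pos hh]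
      have h1 : ∏ i, μ i h = ∏ i, ∑ j, (ν i j h : K) * κ j :=
        Finset.prod_congr rfl fun i _ => hνμ i h hh
      rw [h1, Finset.prod_univ_sum, Fintype.piFinset_univ]
      refine Finset.sum_congr rfl fun J _ => ?_
      rw [Finset.prod_mul_distrib, mul_comm]
    · unfold Ph
      simp only [if_neg hh, mul_zero, Finset.sum_const_zero]
  rw [hexp, tf_eq, ex_sum]
  refine Finset.sum_eq_zero fun J _ => ?_
  have := core_int hC hm hmn (fun i => ν i (J i)) (fun i => hν i (J i)) E hEC
  rw [tf_eq] at this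
  rw [this, mul_zero]

end Pool.Agent.W643.CE
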