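import Pool.Agent.W643.CE.OddMain
import Pool.Agent.W643.CE.Ext2

/-!
# Lifting of invertible matrices and the explicit formula in degree three
-/

set_option autoImplicit false
set_option linter.unusedSectionVars false

namespace Pool.Agent.W643.CE

open Finset Pool.Agent.H23R2 Pool.Agent.H23R2.Ch Pool.Agent.H23R2.Cyc

section lift

variable {R : Type*} [CommRing R] {H : Type*} [Group H] {G : Type*} [Group G]
  {d : Type*} [Fintype d] [DecidableEq d]

lemma map_surj {π : H →* G} (hπ : Function.Surjective π) (y : MonoidAlgebra R G) :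
    ∃ x : MonoidAlgebra R H, MonoidAlgebra.mapDomainAlgHom R R π x = y := by
  induction y using MonoidAlgebra.induction_linear with
  | zero => exact ⟨0, map_zero _⟩
  | add y z hy hz =>
    obtain ⟨a, rfl⟩ := hy
    obtain ⟨b, rfl⟩ := hz
    exact ⟨a + b, map_add _ _ _⟩
  | single g r =>
    obtain ⟨h, rfl⟩ := hπ g
    exact ⟨MonoidAlgebra.single h r, by simp⟩

lemma push_zero_pow {π : H →* G} {Y : Matrix d d (MonoidAlgebra R H)} (hY : push R π Y = 0)
    (m : ℕ) (i j : d) : (Y ^ m) i j ∈ (Kern R π) ^ m := by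
  have hYI : ∀ i j, Y i j ∈ Kern R π := by
    intro i j
    rw [mem_Kern]
    exact congrFun (congrFun hY i) j
  induction m generalizing i j with
  | zero =>
    rw [pow_zero, pow_zero, Matrix.one_apply]
    split_ifs
    · exact Submodule.one_le.mp le_rfl
    · exact Submodule.zero_mem _
  | succ m ih =>
    rw [pow_succ, pow_succ, Matrix.mul_apply]
    exact Submodule.sum_mem _ fun l _ => Submodule.mul_mem_mul (ih i l) (hYI l j)

/-- lifting of invertible matrices modulo a power of the kernel -/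
theorem exists_lift_inv {π : H →* G} (hπ : Function.Surjective π)
    (u v : Matrix d d (MonoidAlgebra R G)) (huv : u * v = 1) (hvu : v * u = 1) (n : ℕ) :
    ∃ U V : Matrix d d (MonoidAlgebra R H), push R π U = u ∧ push R π V = v ∧
      (∀ i j, (U * V - 1) i j ∈ (Kern R π) ^ (n + 1)) ∧
      (∀ i j, (V * U - 1) i j ∈ (Kern R π) ^ (n + 1)) := by
  choose U0 hU0 using fun i j => map_surj hπ (u i j)
  choose V0 hV0 using fun i j => map_surj hπ (v i j)
  set U : Matrix d d (MonoidAlgebra R H) := Matrix.of U0 with hU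
  set W : Matrix d d (MonoidAlgebra R H) := Matrix.of V0 with hW
  have hUu : push R π U = u := by ext1 i j; exact hU0 i j
  have hWv : push R π W = v := by ext1 i j; exact hV0 i j
  have hZ : push R π (1 - U * W) = 0 := by
    rw [push_eq] at hUu hWv ⊢
    rw [map_sub, map_one, map_mul, hUu, hWv, huv, sub_self]
  have hZ' : push R π (1 - W * U) = 0 := by
    rw [push_eq] at hUu hWv ⊢
    rw [map_sub, map_one, map_mul, hUu, hWv, hvu, sub_self]
  set S := ∑ i ∈ range (n + 1), (1 - U * W) ^ i with hS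
  set S' := ∑ i ∈ range (n + 1), (1 - W * U) ^ i with hS'
  have hWS : W * S = S' * W := by
    rw [hS, hS', Finset.mul_sum, Finset.sum_mul]
    have h1 : ∀ i : ℕ, W * (1 - U * W) ^ i = (1 - W * U) ^ i * W := by
      intro i
      induction i with
      | zero => simp
      | succ i ih =>
        rw [pow_succ, ← mul_assoc, ih, pow_succ, mul_assoc, mul_assoc]
        congr 1
        noncomm_ring
    exact Finset.sum_congr rfl fun i _ => h1 i
  refine ⟨U, W * S, hUu, ?_, ?_, ?_⟩
  · have h1 : push R π S = 1 := by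
      rw [push_eq] at hZ ⊢
      rw [hS, map_sum, Finset.sum_eq_single 0]
      · rw [pow_zero, map_one]
      · intro i _ hi
        rw [map_pow, hZ, zero_pow hi]
      · intro h
        exact absurd (Finset.mem_range.mpr (Nat.succ_pos n)) h
    rw [push_eq] at hWv h1 ⊢
    rw [map_mul, hWv, h1, mul_one]
  · intro i j
    have h1 : U * (W * S) - 1 = - (1 - U * W) ^ (n + 1) := by
      have h2 := mul_neg_geom_sum (1 - U * W) (n + 1)
      rw [← hS, sub_sub_cancel] at h2
      rw [← mul_assoc, h2]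
      abel
    rw [h1, Matrix.neg_apply]
    exact Submodule.neg_mem _ (push_zero_pow hZ _ _ _)
  · intro i j
    have h1 : W * S * U - 1 = - (1 - W * U) ^ (n + 1) := by
      have h2 := geom_sum_mul_neg (1 - W * U) (n + 1)
      rw [← hS', sub_sub_cancel] at h2
      rw [hWS, mul_assoc, h2]
      abel
    rw [h1, Matrix.neg_apply]
    exact Submodule.neg_mem _ (push_zero_pow hZ' _ _ _)

end lift

section formula

variable {K : Type*} [Field K] [CharZero K] {G : Type*} [Group G] {H : Type*} [Group H]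
  {d : Type*} [Fintype d] [DecidableEq d]

open Classical in
/-- the functional as an explicit sum -/
lemma tf_explicit {π : H →* G} {m : ℕ} (μ : Fin m → π.ker → K) (β : H → K)
    (U V : Matrix d d (MonoidAlgebra K H)) :
    ∑ i, ∑ j, ((V i j).coeff.sum fun x b => (U j i).coeff.sum fun y a =>
      b * a * β y * (if h : x * y ∈ π.ker then ∏ l, μ l ⟨x * y, h⟩ else 0)) =
    tf (k := K) (Ph π.ker (fun i h => if hh : h ∈ π.ker then μ i ⟨h, hh⟩ else 0) univ)
      (V * U.map (Dr K β)) := by
  rw [tf_apply]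
  refine Finset.sum_congr rfl fun i _ => ?_
  rw [Matrix.mul_apply, map_sum]
  refine Finset.sum_congr rfl fun j _ => ?_
  rw [Matrix.map_apply]
  have e1 : ∀ x : MonoidAlgebra K H, x = ∑ f ∈ x.coeff.support,
      MonoidAlgebra.single f (x.coeff f) := by
    intro x
    conv_lhs => rw [← ex_id x, ex_eq_sum]
    exact Finset.sum_congr rfl fun f _ => (single_eq_smul f _).symm
  conv_rhs => rw [e1 (V i j), e1 (U j i), map_sum, Finset.sum_mul_sum, map_sum]
  rw [Finsupp.sum]
  refine Finset.sum_congr rfl fun x _ => ?_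
  rw [Finsupp.sum, map_sum]
  refine Finset.sum_congr rfl fun y _ => ?_
  rw [Dr_single, mul_smul_comm, MonoidAlgebra.single_mul_single, map_smul, ex_single, smul_eq_mul,
    smul_eq_mul]
  have h1 : (if h : x * y ∈ π.ker then ∏ l, μ l ⟨x * y, h⟩ else 0) =
      Ph π.ker (fun i h => if hh : h ∈ π.ker then μ i ⟨h, hh⟩ else 0) univ (x * y) := by
    unfold Ph
    by_cases h2 : x * y ∈ π.ker
    · rw [dif_pos h2, if_pos h2]
      refine Finset.prod_congr rfl fun l _ => ?_
      beta_reduce
      rw [dif_pos h2]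
    · rw [dif_neg h2, if_neg h2]
  rw [h1]
  ring

open Classical in
/-- the formula in degree three -/
theorem degree_three (u v : Matrix d d (MonoidAlgebra K G)) (huv : u * v = 1) (hvu : v * u = 1)
    (c : G → G → K) (hc : ∀ x y z, c x y + c (x * y) z = c y z + c x (y * z)) (h1 : c 1 1 = 0)
    (α : G → K) (hα : ∀ x y, α (x * y) = α x + α y)
    (S : Finset G) (hSu : ∀ i j g, (u i j).coeff g ≠ 0 → g ∈ S)
    (hSv : ∀ i j g, (v i j).coeff g ≠ 0 → g ∈ S) :
    ∑ g ∈ S, (cm v g⁻¹ * cm u g).trace * c g⁻¹ g * α g =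
      ∑ w ∈ S, ∑ x ∈ S, ∑ z ∈ S,
        (cm v w * cm u x * cm v (z * w * x)⁻¹ * cm u z).trace * c w x * α z := by
  let f : Nc K G := ⟨c, hc, h1⟩
  -- the section
  let sec : Matrix d d (MonoidAlgebra K G) →+ Matrix d d (MonoidAlgebra K (CExt f)) :=
    { toFun := fun X => X.map (ex (k := K) (fun g => MonoidAlgebra.single (⟨0, g⟩ : CExt f) (1 : K)))
      map_zero' := by ext1 i j; simp
      map_add' := by intro X Y; ext1 i j; simp }
  have hsec : ∀ (A : Matrix d d K) (g : G), sec (io A g) = io A (⟨0, g⟩ : CExt f) := by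
    intro A g
    ext1 i j
    show ex (k := K) _ (MonoidAlgebra.single g (A i j)) = MonoidAlgebra.single _ (A i j)
    rw [ex_single, ← single_eq_smul]
  set U := sec u with hU
  set W := sec v with hW
  have hU' : U = ∑ g ∈ S, io (cm u g) (⟨0, g⟩ : CExt f) := by
    rw [hU]
    conv_lhs => rw [eq_sum_io' u S hSu]
    rw [map_sum]
    exact Finset.sum_congr rfl fun g _ => hsec _ _
  have hW' : W = ∑ g ∈ S, io (cm v g) (⟨0, g⟩ : CExt f) := by
    rw [hW]
    conv_lhs => rw [eq_sum_io' v S hSv]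
    rw [map_sum]
    exact Finset.sum_congr rfl fun g _ => hsec _ _
  have hUu : push K (CExt.proj f) U = u := by
    rw [push_eq, hU', map_sum]
    conv_rhs => rw [eq_sum_io' u S hSu]
    refine Finset.sum_congr rfl fun g _ => ?_
    rw [← push_eq, push_io]
    rfl
  have hWv : push K (CExt.proj f) W = v := by
    rw [push_eq, hW', map_sum]
    conv_rhs => rw [eq_sum_io' v S hSv]
    refine Finset.sum_congr rfl fun g _ => ?_
    rw [← push_eq, push_io]
    rfl
  have hZ : push K (CExt.proj f) (1 - U * W) = 0 := by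
    rw [push_eq] at hUu hWv ⊢
    rw [map_sub, map_one, map_mul, hUu, hWv, huv, sub_self]
  have hZ' : push K (CExt.proj f) (1 - W * U) = 0 := by
    rw [push_eq] at hUu hWv ⊢
    rw [map_sub, map_one, map_mul, hUu, hWv, hvu, sub_self]
  set V := 2 • W - W * U * W with hV
  have hUV : ∀ i j, (U * V - 1) i j ∈ (Kern K (CExt.proj f)) ^ (1 + 1) := by
    intro i j
    have e1 : U * V - 1 = - (1 - U * W) ^ (1 + 1) := by rw [hV]; noncomm_ring
    rw [e1, Matrix.neg_apply]
    exact Submodule.neg_mem _ (push_zero_pow hZ _ _ _)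
  have hVU : ∀ i j, (V * U - 1) i j ∈ (Kern K (CExt.proj f)) ^ (1 + 1) := by
    intro i j
    have e1 : V * U - 1 = - (1 - W * U) ^ (1 + 1) := by rw [hV]; noncomm_ring
    rw [e1, Matrix.neg_apply]
    exact Submodule.neg_mem _ (push_zero_pow hZ' _ _ _)
  have hα1 : α 1 = 0 := by
    have := hα 1 1
    rw [mul_one] at this
    exact left_eq_add.mp this
  have hμ : ∀ i : Fin 1, ∀ a ∈ (CExt.proj f).ker, ∀ b ∈ (CExt.proj f).ker,
      (fun (_ : Fin 1) (x : CExt f) => x.a) i (a * b) =
        (fun (_ : Fin 1) (x : CExt f) => x.a) i a + (fun (_ : Fin 1) (x : CExt f) => x.a) i b := by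
    intro _ a ha b _
    show a.a + b.a + c a.g b.g = _
    have h3 : a.g = 1 := ha
    rw [h3, show c 1 b.g = 0 from f.one_left _, add_zero]
  have hmain := odd_main (π := CExt.proj f) CExt.central (m := 1) (n := 1) le_rfl le_rfl
    (fun _ x => x.a) hμ U V hUV hVU (α := fun x => α x.g) (fun x y => hα _ _)
    (fun a ha => by
      have h3 : a.g = 1 := ha
      show α a.g = 0
      rw [h3, hα1])
  set Φ : CExt f → K := Ph (CExt.proj f).ker (fun (_ : Fin 1) (x : CExt f) => x.a) univ with hΦ
  have hΦv : ∀ x : CExt f, Φ x = if x.g = 1 then x.a else 0 := by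
    intro x
    rw [hΦ]
    unfold Ph
    by_cases hx : x.g = 1
    · have hx' : x ∈ (CExt.proj f).ker := hx
      rw [if_pos hx', if_pos hx, Finset.prod_eq_single (0 : Fin 1)]
      · intro i _ hi
        exact absurd (Subsingleton.elim i 0) hi
      · intro h; exact absurd (Finset.mem_univ _) h
    · have hx' : x ∉ (CExt.proj f).ker := hx
      rw [if_neg hx', if_neg hx]
  rw [tf_mul_comm Φ (Ph_comm CExt.central _ _)] at hmain
  set DU := U.map (Dr K fun x : CExt f => α x.g) with hDU
  have hDU' : DU = ∑ g ∈ S, io (α g • cm u g) (⟨0, g⟩ : CExt f) := by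
    rw [hDU, hU']
    ext1 i j
    rw [Matrix.map_apply, Matrix.sum_apply, map_sum, Matrix.sum_apply]
    refine Finset.sum_congr rfl fun g _ => ?_
    show Dr K _ (MonoidAlgebra.single _ (cm u g i j)) = MonoidAlgebra.single _ _
    rw [Dr_single, Matrix.smul_apply, smul_eq_mul]
    simp
  have e2 : V * DU = W * DU - (W * U - 1) * (W * DU) := by rw [hV]; noncomm_ring
  rw [e2, map_sub, sub_eq_zero] at hmain
  have hleft : tf Φ (W * DU) = ∑ g ∈ S, (cm v g⁻¹ * cm u g).trace * c g⁻¹ g * α g := by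
    rw [hW', hDU', Finset.sum_mul_sum, map_sum]
    simp only [map_sum]
    rw [Finset.sum_comm]
    refine Finset.sum_congr rfl fun g _ => ?_
    have h3 : ∀ w ∈ S, tf Φ (io (cm v w) (⟨0, w⟩ : CExt f) * io (α g • cm u g) (⟨0, g⟩ : CExt f)) =
        if w = g⁻¹ then (cm v g⁻¹ * cm u g).trace * c g⁻¹ g * α g else 0 := by
      intro w _
      rw [io_mul, tf_io, hΦv]
      have e3 : ((⟨0, w⟩ : CExt f) * ⟨0, g⟩).g = w * g := rfl
      have e4 : ((⟨0, w⟩ : CExt f) * ⟨0, g⟩).a = c w g := by
        show (0 : K) + 0 + c w g = _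
        rw [add_zero, zero_add]
      rw [e3, e4, smul_eq_mul]
      by_cases h4 : w = g⁻¹
      · rw [if_pos h4, if_pos (by rw [h4, inv_mul_cancel]), h4, Matrix.mul_smul, Matrix.trace_smul,
          smul_eq_mul]
        ring
      · rw [if_neg h4, if_neg (fun h5 => h4 (eq_inv_of_mul_eq_one_left h5)), mul_zero]
    rw [Finset.sum_congr rfl h3, Finset.sum_ite_eq']
    split_ifs with h4
    · rfl
    · rw [cm_zero v S hSv h4, zero_mul, Matrix.trace_zero, zero_mul, zero_mul]
  have hone : ∑ w ∈ S, ∑ x ∈ S, io (cm v w * cm u x) (⟨0, w * x⟩ : CExt f) = 1 := by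
    have e3 : sec (v * u) = ∑ w ∈ S, ∑ x ∈ S, io (cm v w * cm u x) (⟨0, w * x⟩ : CExt f) := by
      conv_lhs => rw [eq_sum_io' v S hSv, eq_sum_io' u S hSu]
      rw [Finset.sum_mul_sum, map_sum]
      refine Finset.sum_congr rfl fun w _ => ?_
      rw [map_sum]
      refine Finset.sum_congr rfl fun x _ => ?_
      rw [io_mul, hsec]
    rw [← e3, hvu, ← io_one, hsec]
    exact io_one
  have hWU : W * U - 1 = ∑ w ∈ S, ∑ x ∈ S, (io (cm v w * cm u x) (⟨c w x, w * x⟩ : CExt f) -
      io (cm v w * cm u x) (⟨0, w * x⟩ : CExt f)) := by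
    simp only [Finset.sum_sub_distrib]
    rw [hone, hW', hU', Finset.sum_mul_sum]
    congr 1
    refine Finset.sum_congr rfl fun w _ => Finset.sum_congr rfl fun x _ => ?_
    rw [io_mul]
    congr 1
    ext
    · show (0 : K) + 0 + c w x = c w x
      rw [add_zero, zero_add]
    · rfl
  have hright : tf Φ ((W * U - 1) * (W * DU)) = ∑ w ∈ S, ∑ x ∈ S, ∑ z ∈ S,
        (cm v w * cm u x * cm v (z * w * x)⁻¹ * cm u z).trace * c w x * α z := by
    rw [hWU, Finset.sum_mul, map_sum]
    refine Finset.sum_congr rfl fun w _ => ?_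
    rw [Finset.sum_mul, map_sum]
    refine Finset.sum_congr rfl fun x _ => ?_
    rw [hW', hDU', Finset.sum_mul_sum, Finset.sum_comm, Finset.mul_sum, map_sum]
    refine Finset.sum_congr rfl fun z _ => ?_
    rw [Finset.mul_sum, map_sum]
    have h3 : ∀ y ∈ S, tf Φ ((io (cm v w * cm u x) (⟨c w x, w * x⟩ : CExt f) -
        io (cm v w * cm u x) (⟨0, w * x⟩ : CExt f)) *
          (io (cm v y) (⟨0, y⟩ : CExt f) * io (α z • cm u z) (⟨0, z⟩ : CExt f))) =
        if y = (z * w * x)⁻¹ then
          (cm v w * cm u x * cm v (z * w * x)⁻¹ * cm u z).trace * c w x * α z else 0 := by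
      intro y _
      rw [io_mul, sub_mul, io_mul, io_mul, map_sub, tf_io, tf_io, hΦv, hΦv]
      have e3 : ((⟨c w x, w * x⟩ : CExt f) * (⟨0, y⟩ * ⟨0, z⟩)).g = w * x * (y * z) := rfl
      have e4 : ((⟨0, w * x⟩ : CExt f) * (⟨0, y⟩ * ⟨0, z⟩)).g = w * x * (y * z) := rfl
      have e5 : ((⟨c w x, w * x⟩ : CExt f) * (⟨0, y⟩ * ⟨0, z⟩)).a =
          c w x + (0 + 0 + c y z) + c (w * x) (y * z) := rfl
      have e6 : ((⟨0, w * x⟩ : CExt f) * (⟨0, y⟩ * ⟨0, z⟩)).a =
          0 + (0 + 0 + c y z) + c (w * x) (y * z) := rfl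
      rw [e3, e4, e5, e6, smul_eq_mul, smul_eq_mul]
      have h6 : w * x * (y * z) = 1 ↔ y = (z * w * x)⁻¹ := by
        constructor
        · intro h
          have h7 : y = (w * x)⁻¹ * (w * x * (y * z)) * z⁻¹ := by group
          rw [h7, h]
          group
        · intro h
          rw [h]
          group
      by_cases h4 : y = (z * w * x)⁻¹
      · rw [if_pos h4, if_pos (h6.mpr h4), if_pos (h6.mpr h4), h4, ← mul_assoc (cm v w * cm u x),
          Matrix.mul_smul, Matrix.trace_smul, smul_eq_mul]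
        ring
      · rw [if_neg h4, if_neg (fun h5 => h4 (h6.mp h5)), if_neg (fun h5 => h4 (h6.mp h5)),
          mul_zero, sub_zero]
    rw [Finset.sum_congr rfl h3, Finset.sum_ite_eq']
    split_ifs with h4
    · rfl
    · rw [cm_zero v S hSv h4, mul_zero, zero_mul, Matrix.trace_zero, zero_mul, zero_mul]
  rw [hleft, hright] at hmain
  exact hmain

end formula

end Pool.Agent.W643.CE
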