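import Pool.Agent.W643.CE.Toep

/-!
# Invertible matrices
-/

set_option autoImplicit false
set_option linter.unusedSectionVars false

namespace Pool.Agent.W643.CE

open Finset Pool.Agent.H23R2 Pool.Agent.H23R2.Ch Pool.Agent.H23R2.Cyc

variable {K : Type*} [Field K] [CharZero K] {H : Type*} [Group H] {G : Type*} [Group G]
  {d : Type*} [Fintype d] [DecidableEq d]

lemma ex_Ph_comp {ι : Type*} {A : Subgroup H} (μ : ι → H → K) (s : Finset ι) {α : H → ℚ}
    (hα : ∀ x y, α (x * y) = α x + α y) (hA : ∀ a ∈ A, α a = 0) (w : ℤ)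
    (x y : MonoidAlgebra K H) :
    ex (k := K) (Ph A μ s) (comp K α w x * comp K α (-w) y) =
      ex (k := K) (Ph A μ s) (comp K α w x * y) := by
  induction x using MonoidAlgebra.induction_linear with
  | zero => simp
  | add x x' h h' => simp only [map_add, add_mul, h, h']
  | single g r =>
    rw [comp_single]
    split_ifs with h1
    · induction y using MonoidAlgebra.induction_linear with
      | zero => simp
      | add y y' h h' => simp only [map_add, mul_add, h, h']
      | single g' r' =>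
        rw [comp_single]
        split_ifs with h2
        · rfl
        · rw [mul_zero, map_zero, MonoidAlgebra.single_mul_single, ex_single]
          have h3 : g * g' ∉ A := by
            intro h4
            apply h2
            have h5 := hA _ h4
            rw [hα, h1] at h5
            push_cast
            linarith
          unfold Ph
          rw [if_neg h3, smul_zero]
    · simp

lemma Kern_pow_mul (π : H →* G) (n : ℕ) {y : MonoidAlgebra K H}
    (hy : y ∈ (Kern K π) ^ (n + 1)) (x : MonoidAlgebra K H) : y * x ∈ (Kern K π) ^ (n + 1) := by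
  rw [pow_succ] at hy ⊢
  refine Submodule.mul_induction_on hy ?_ ?_
  · intro u hu v hv
    rw [mul_assoc]
    refine Submodule.mul_mem_mul hu ?_
    rw [mem_Kern] at hv ⊢
    rw [map_mul, hv, zero_mul]
  · intro u v h h'
    rw [add_mul]
    exact Submodule.add_mem _ h h'

lemma comp_mem_Kern {π : H →* G} {α : H → ℚ} (hα : ∀ x y, α (x * y) = α x + α y)
    (hA : ∀ a ∈ π.ker, α a = 0) (n : ℕ) (z : ℤ) {x : MonoidAlgebra K H}
    (hx : x ∈ (Kern K π) ^ n) : comp K α z x ∈ (Kern K π) ^ n := by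
  rw [Kern_eq] at hx ⊢
  exact comp_mem hα hA n z hx

lemma comp_one {α : H → ℚ} (h0 : α 1 = 0) (z : ℤ) :
    comp K α z (1 : MonoidAlgebra K H) = if z = 0 then 1 else 0 := by
  rw [MonoidAlgebra.one_def, comp_single, h0]
  by_cases hz : z = 0
  · rw [if_pos hz, if_pos (by rw [hz]; simp)]
  · rw [if_neg hz, if_neg]
    intro h
    exact hz (by exact_mod_cast h.symm)

theorem odd_int {π : H →* G} (hπ : ∀ a ∈ π.ker, ∀ h : H, a * h = h * a) {m n : ℕ} (hm : 1 ≤ m)
    (hmn : m ≤ n) (μ : Fin m → H → K)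
    (hμ : ∀ i, ∀ a ∈ π.ker, ∀ b ∈ π.ker, μ i (a * b) = μ i a + μ i b)
    (U V : Matrix d d (MonoidAlgebra K H))
    (hUV : ∀ i j, (U * V - 1) i j ∈ (Kern K π) ^ (n + 1))
    (hVU : ∀ i j, (V * U - 1) i j ∈ (Kern K π) ^ (n + 1))
    {α : H → ℚ} (hα : ∀ x y, α (x * y) = α x + α y) (hαA : ∀ a ∈ π.ker, α a = 0) {N : ℕ}
    (hU : ∀ i j, Dg α N (U i j)) (hV : ∀ i j, Dg α N (V i j)) :
    tf (k := K) (Ph π.ker μ univ) (U.map (Dr K fun h => ((α h : ℚ) : K)) * V) = 0 := by
  classical
  have hα1 : α 1 = 0 := hαA 1 π.ker.one_mem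
  set X := Tz α (2 * N) N U with hX
  set Y := Tz α (2 * N) (-N) V with hY
  set Z1 := Tz α (2 * N) N V with hZ1
  set Z2 := Tz α (2 * N) (-N) U with hZ2
  have h1 : ∀ p q, (Y * X + Z1 * Z2 - 1) p q ∈ (Kern K π) ^ (n + 1) := by
    intro p q
    rw [Matrix.sub_apply, hX, hY, hZ1, hZ2, Tz_sum hα hV]
    have e1 : (V * U) p.2 q.2 = (V * U - 1) p.2 q.2 + (1 : Matrix d d (MonoidAlgebra K H)) p.2 q.2 := by
      rw [Matrix.sub_apply]; abel
    have e2 : comp K α ((p.1 : ℕ) - (q.1 : ℕ)) ((1 : Matrix d d (MonoidAlgebra K H)) p.2 q.2) =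
        (1 : Matrix (Fin (2 * N) × d) (Fin (2 * N) × d) (MonoidAlgebra K H)) p q := by
      rw [Matrix.one_apply, Matrix.one_apply]
      by_cases h2 : p.2 = q.2
      · rw [if_pos h2, comp_one hα1]
        by_cases h3 : p.1 = q.1
        · rw [if_pos (by rw [h3]; ring), if_pos (Prod.ext h3 h2)]
        · rw [if_neg, if_neg]
          · intro h4; exact h3 (by rw [h4])
          · intro h4
            apply h3
            apply Fin.ext
            omega
      · rw [if_neg h2, map_zero, if_neg]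
        intro h4; exact h2 (by rw [h4])
    rw [e1, map_add, e2, add_sub_cancel_right]
    exact comp_mem_Kern hα hαA _ _ (hVU _ _)
  have h2 : ∀ p q, (X * Z1) p q ∈ (Kern K π) ^ (n + 1) := by
    intro p q
    rw [hX, hZ1, Tz_zero hα hU hV]
    have e1 : (U * V) p.2 q.2 = (U * V - 1) p.2 q.2 + (1 : Matrix d d (MonoidAlgebra K H)) p.2 q.2 := by
      rw [Matrix.sub_apply]; abel
    have e2 : comp K α ((p.1 : ℕ) - (q.1 : ℕ) + 2 * N)
        ((1 : Matrix d d (MonoidAlgebra K H)) p.2 q.2) = 0 := by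
      have hq := q.1.2
      rw [Matrix.one_apply]
      split_ifs
      · rw [comp_one hα1, if_neg (by omega)]
      · rw [map_zero]
    rw [e1, map_add, e2, add_zero]
    exact comp_mem_Kern hα hαA _ _ (hUV _ _)
  have hleft : ∀ (P Q : Matrix (Fin (2 * N) × d) (Fin (2 * N) × d) (MonoidAlgebra K H)),
      (∀ p q, Q p q ∈ (Kern K π) ^ (n + 1)) → ∀ p q, (P * Q) p q ∈ (Kern K π) ^ (n + 1) := by
    intro P Q hQ p q
    rw [Matrix.mul_apply]
    exact Submodule.sum_mem _ fun l _ => mul_mem_Kern_pow n _ (hQ _ _)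
  have hright : ∀ (P Q : Matrix (Fin (2 * N) × d) (Fin (2 * N) × d) (MonoidAlgebra K H)),
      (∀ p q, P p q ∈ (Kern K π) ^ (n + 1)) → ∀ p q, (P * Q) p q ∈ (Kern K π) ^ (n + 1) := by
    intro P Q hP p q
    rw [Matrix.mul_apply]
    exact Submodule.sum_mem _ fun l _ => Kern_pow_mul π n (hP _ _) _
  have hE : ∀ p q, (X * Y * (X * Y) - X * Y) p q ∈ (Kern K π) ^ (n + 1) := by
    intro p q
    have e1 : X * Y * (X * Y) - X * Y = X * (Y * X + Z1 * Z2 - 1) * Y - X * Z1 * (Z2 * Y) := by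
      noncomm_ring
    rw [e1, Matrix.sub_apply]
    exact Submodule.sub_mem _ (hright _ _ (hleft _ _ h1) p q) (hright _ _ h2 p q)
  have hmain := main hπ hm hmn μ hμ (X * Y) (by rw [← Kern_eq]; exact hE)
  -- the trace
  have hUV0 : ∑ a, ∑ b, ex (k := K) (Ph π.ker μ univ) (U a b * V b a) = 0 := by
    have e1 : ∑ a, ∑ b, ex (k := K) (Ph π.ker μ univ) (U a b * V b a) =
        ∑ a, ex (k := K) (Ph π.ker μ univ) ((U * V - 1) a a + 1) := by
      refine Finset.sum_congr rfl fun a _ => ?_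
      rw [Matrix.sub_apply, Matrix.one_apply_eq, sub_add_cancel, Matrix.mul_apply, map_sum]
    rw [e1]
    refine Finset.sum_eq_zero fun a _ => ?_
    have e2 := ex_pow_zero (B := π.ker) hπ (μ := μ) hμ (n + 1) univ
      (by rw [Finset.card_univ, Fintype.card_fin]; omega) 1 (y := (U * V - 1) a a)
      (by rw [← Kern_eq]; exact hUV a a)
    rw [one_mul] at e2
    rw [map_add, e2, zero_add, MonoidAlgebra.one_def, ex_single, one_smul]
    unfold Ph
    rw [if_pos π.ker.one_mem]
    refine Finset.prod_eq_zero (Finset.mem_univ (⟨0, hm⟩ : Fin m)) ?_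
    have := hμ ⟨0, hm⟩ 1 π.ker.one_mem 1 π.ker.one_mem
    rw [mul_one] at this
    exact left_eq_add.mp this
  have htr : tf (k := K) (Ph π.ker μ univ) (X * Y) =
      ∑ a, ∑ b, ex (k := K) (Ph π.ker μ univ)
        ((∑ i : Fin (2 * N), ∑ j : Fin (2 * N), comp K α (((i : ℕ) : ℤ) - (j : ℕ) + N) (U a b)) *
          V b a) := by
    rw [tf_apply]
    have e1 : ∀ p : Fin (2 * N) × d, ex (k := K) (Ph π.ker μ univ) ((X * Y) p p) =
        ∑ j : Fin (2 * N), ∑ b, ex (k := K) (Ph π.ker μ univ)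
          (comp K α (((p.1 : ℕ) : ℤ) - (j : ℕ) + N) (U p.2 b) * V b p.2) := by
      intro p
      rw [Matrix.mul_apply, map_sum, Fintype.sum_prod_type]
      refine Finset.sum_congr rfl fun j _ => Finset.sum_congr rfl fun b _ => ?_
      rw [← ex_Ph_comp μ univ hα hαA]
      simp only [hX, hY, Tz, Matrix.of_apply]
      congr 4
      ring
    rw [Finset.sum_congr rfl fun p _ => e1 p, Fintype.sum_prod_type, Finset.sum_comm]
    refine Finset.sum_congr rfl fun a _ => ?_
    have e2 : ∀ i : Fin (2 * N), ∑ j : Fin (2 * N), ∑ b, ex (k := K) (Ph π.ker μ univ)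
          (comp K α (((i : ℕ) : ℤ) - (j : ℕ) + N) (U a b) * V b a) =
        ∑ b, ∑ j : Fin (2 * N), ex (k := K) (Ph π.ker μ univ)
          (comp K α (((i : ℕ) : ℤ) - (j : ℕ) + N) (U a b) * V b a) := fun i => Finset.sum_comm
    rw [Finset.sum_congr rfl fun i _ => e2 i, Finset.sum_comm]
    refine Finset.sum_congr rfl fun b _ => ?_
    rw [Finset.sum_mul, map_sum]
    refine Finset.sum_congr rfl fun i _ => ?_
    rw [Finset.sum_mul, map_sum]
  rw [htr] at hmain
  have e3 : ∀ a b, ex (k := K) (Ph π.ker μ univ)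
        ((∑ i : Fin (2 * N), ∑ j : Fin (2 * N), comp K α (((i : ℕ) : ℤ) - (j : ℕ) + N) (U a b)) *
          V b a) = ex (k := K) (Ph π.ker μ univ) (Dr K (fun h => ((α h : ℚ) : K)) (U a b) * V b a) +
        N • ex (k := K) (Ph π.ker μ univ) (U a b * V b a) := by
    intro a b
    rw [sum_comp_count (hU a b), add_mul, map_add, smul_mul_assoc, map_nsmul]
  simp only [e3, Finset.sum_add_distrib, ← Finset.smul_sum] at hmain
  rw [hUV0, smul_zero, add_zero] at hmain
  rw [tf_apply, ← hmain]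
  refine Finset.sum_congr rfl fun a _ => ?_
  rw [Matrix.mul_apply, map_sum]
  rfl

/-- common denominators -/
lemma exists_den (S : Finset H) (a : H → ℚ) : ∃ M : ℕ, 0 < M ∧ ∀ h ∈ S, ∃ z : ℤ, (M : ℚ) * a h = z := by
  classical
  induction S using Finset.induction_on with
  | empty => exact ⟨1, one_pos, by simp⟩
  | insert g S _ ih =>
    obtain ⟨M, hM, h⟩ := ih
    refine ⟨M * (a g).den, Nat.mul_pos hM (a g).pos, ?_⟩
    intro x hx
    rcases Finset.mem_insert.mp hx with rfl | hx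
    · refine ⟨M * (a x).num, ?_⟩
      push_cast
      rw [mul_assoc, Rat.den_mul_eq_num]
    · obtain ⟨z, hz⟩ := h x hx
      refine ⟨z * (a g).den, ?_⟩
      push_cast
      rw [← hz]
      ring

theorem odd_rat {π : H →* G} (hπ : ∀ a ∈ π.ker, ∀ h : H, a * h = h * a) {m n : ℕ} (hm : 1 ≤ m)
    (hmn : m ≤ n) (μ : Fin m → H → K)
    (hμ : ∀ i, ∀ a ∈ π.ker, ∀ b ∈ π.ker, μ i (a * b) = μ i a + μ i b)
    (U V : Matrix d d (MonoidAlgebra K H))
    (hUV : ∀ i j, (U * V - 1) i j ∈ (Kern K π) ^ (n + 1))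
    (hVU : ∀ i j, (V * U - 1) i j ∈ (Kern K π) ^ (n + 1))
    {α : H → ℚ} (hα : ∀ x y, α (x * y) = α x + α y) (hαA : ∀ a ∈ π.ker, α a = 0) :
    tf (k := K) (Ph π.ker μ univ) (U.map (Dr K fun h => ((α h : ℚ) : K)) * V) = 0 := by
  classical
  obtain ⟨M, hM, hz⟩ := exists_den (msupp U ∪ msupp V) α
  choose! z hz using hz
  let N : ℕ := ∑ h ∈ msupp U ∪ msupp V, (z h).natAbs
  have hN : ∀ h ∈ msupp U ∪ msupp V, -(N : ℤ) ≤ z h ∧ z h ≤ N := by
    intro h hh
    have h1 : (z h).natAbs ≤ N :=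
      Finset.single_le_sum (f := fun h => (z h).natAbs) (fun _ _ => Nat.zero_le _) hh
    omega
  let β : H → ℚ := fun h => (M : ℚ) * α h
  have hβ : ∀ x y, β (x * y) = β x + β y := by
    intro x y
    show (M : ℚ) * α (x * y) = M * α x + M * α y
    rw [hα, mul_add]
  have hβA : ∀ a ∈ π.ker, β a = 0 := by
    intro a ha
    show (M : ℚ) * α a = 0
    rw [hαA a ha, mul_zero]
  have h1 := odd_int hπ hm hmn μ hμ U V hUV hVU hβ hβA (N := N)
    (fun i j h hh => by
      have h2 : h ∈ msupp U ∪ msupp V := Finset.mem_union_left _ (mem_msupp U i j h hh)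
      exact ⟨z h, hz h h2, (hN h h2).1, (hN h h2).2⟩)
    (fun i j h hh => by
      have h2 : h ∈ msupp U ∪ msupp V := Finset.mem_union_right _ (mem_msupp V i j h hh)
      exact ⟨z h, hz h h2, (hN h h2).1, (hN h h2).2⟩)
  have h2 : ∀ x : MonoidAlgebra K H, Dr K (fun h => ((β h : ℚ) : K)) x =
      (M : K) • Dr K (fun h => ((α h : ℚ) : K)) x := by
    intro x
    induction x using MonoidAlgebra.induction_linear with
    | zero => simp
    | add x y hx hy => rw [map_add, map_add, smul_add, hx, hy]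
    | single g r =>
      rw [Dr_single, Dr_single, smul_smul]
      congr 1
      show (((M : ℚ) * α g : ℚ) : K) = _
      push_cast
      rfl
  have h3 : U.map (Dr K fun h => ((β h : ℚ) : K)) = (M : K) • U.map (Dr K fun h => ((α h : ℚ) : K)) := by
    ext1 i j
    rw [Matrix.map_apply, Matrix.smul_apply, Matrix.map_apply, h2]
  rw [h3, smul_mul_assoc] at h1
  have h4 : ∀ (c : K) (X : Matrix d d (MonoidAlgebra K H)),
      tf (k := K) (Ph π.ker μ univ) (c • X) = c * tf (k := K) (Ph π.ker μ univ) X := by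
    intro c X
    rw [tf_apply, tf_apply, Finset.mul_sum]
    refine Finset.sum_congr rfl fun i _ => ?_
    rw [Matrix.smul_apply, map_smul, smul_eq_mul]
  rw [h4] at h1
  exact (mul_eq_zero.mp h1).resolve_left (by exact_mod_cast hM.ne')

/-- coordinates -/
lemma exists_lin (S : Finset K) : ∃ (r : ℕ) (κ : Fin r → K) (lam : Fin r → K →ₗ[ℚ] ℚ),
    ∀ x ∈ S, x = ∑ j, (lam j x : K) * κ j := by
  classical
  let L : Submodule ℚ K := Submodule.span ℚ (S : Set K)
  have hfin : Module.Finite ℚ L := Module.Finite.span_of_finite ℚ (Finset.finite_toSet _)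
  let bs := Module.finBasis ℚ L
  choose lam hlam using fun j => LinearMap.exists_extend (bs.coord j)
  refine ⟨Module.finrank ℚ L, fun j => (bs j : K), lam, ?_⟩
  intro x hx
  have hxL : x ∈ L := Submodule.subset_span hx
  have h2 := bs.sum_repr ⟨x, hxL⟩
  have h3 := congrArg Subtype.val h2
  rw [AddSubmonoidClass.coe_finsetSum] at h3
  refine h3.symm.trans ?_
  refine Finset.sum_congr rfl fun j _ => ?_
  have h4 : lam j x = bs.repr ⟨x, hxL⟩ j := by
    have := LinearMap.congr_fun (hlam j) ⟨x, hxL⟩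
    exact this
  rw [Submodule.coe_smul, h4, Algebra.smul_def]
  rfl

/-- **The main theorem on invertible matrices.** -/
theorem odd_main {π : H →* G} (hπ : ∀ a ∈ π.ker, ∀ h : H, a * h = h * a) {m n : ℕ} (hm : 1 ≤ m)
    (hmn : m ≤ n) (μ : Fin m → H → K)
    (hμ : ∀ i, ∀ a ∈ π.ker, ∀ b ∈ π.ker, μ i (a * b) = μ i a + μ i b)
    (U V : Matrix d d (MonoidAlgebra K H))
    (hUV : ∀ i j, (U * V - 1) i j ∈ (Kern K π) ^ (n + 1))
    (hVU : ∀ i j, (V * U - 1) i j ∈ (Kern K π) ^ (n + 1))
    {α : H → K} (hα : ∀ x y, α (x * y) = α x + α y) (hαA : ∀ a ∈ π.ker, α a = 0) :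
    tf (k := K) (Ph π.ker μ univ) (U.map (Dr K α) * V) = 0 := by
  classical
  obtain ⟨r, κ, lam, hlam⟩ := exists_lin ((msupp U).image α)
  have h1 : ∀ a b, Dr K α (U a b) = ∑ j, κ j • Dr K (fun h => ((lam j (α h) : ℚ) : K)) (U a b) := by
    intro a b
    unfold Dr
    rw [ex_eq_sum]
    simp only [ex_eq_sum, Finset.smul_sum]
    rw [Finset.sum_comm]
    refine Finset.sum_congr rfl fun h hh => ?_
    have h2 := hlam (α h) (Finset.mem_image_of_mem _ (mem_msupp U a b h
      (Finsupp.mem_support_iff.mp hh)))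
    conv_lhs => rw [h2]
    rw [Finset.sum_smul, Finset.smul_sum]
    refine Finset.sum_congr rfl fun j _ => ?_
    rw [smul_smul, smul_smul, smul_smul]
    congr 1
    ring
  have h2 : tf (k := K) (Ph π.ker μ univ) (U.map (Dr K α) * V) =
      ∑ j, κ j * tf (k := K) (Ph π.ker μ univ)
        (U.map (Dr K (fun h => ((lam j (α h) : ℚ) : K))) * V) := by
    simp only [tf_apply, Matrix.mul_apply, Matrix.map_apply, h1, Finset.mul_sum]
    rw [Finset.sum_comm]
    refine Finset.sum_congr rfl fun a _ => ?_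
    rw [map_sum]
    have e1 : ∀ b, ex (k := K) (Ph π.ker μ univ)
        ((∑ j, κ j • Dr K (fun h => ((lam j (α h) : ℚ) : K)) (U a b)) * V b a) =
        ∑ j, κ j * ex (k := K) (Ph π.ker μ univ)
          (Dr K (fun h => ((lam j (α h) : ℚ) : K)) (U a b) * V b a) := by
      intro b
      rw [Finset.sum_mul, map_sum]
      refine Finset.sum_congr rfl fun j _ => ?_
      rw [smul_mul_assoc, map_smul, smul_eq_mul]
    rw [Finset.sum_congr rfl fun b _ => e1 b, Finset.sum_comm]
    refine Finset.sum_congr rfl fun j _ => ?_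
    rw [map_sum, Finset.mul_sum]
  rw [h2]
  refine Finset.sum_eq_zero fun j _ => ?_
  rw [odd_rat hπ hm hmn μ hμ U V hUV hVU (α := fun h => lam j (α h)) ?_ ?_, mul_zero]
  · intro x y
    show lam j (α (x * y)) = _
    rw [hα, map_add]
  · intro a ha
    show lam j (α a) = 0
    rw [hαA a ha, map_zero]

end Pool.Agent.W643.CE
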