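import Pool.Agent.W643.CE.Comp

/-!
# Toeplitz idempotents
-/

set_option autoImplicit false
set_option linter.unusedSectionVars false

namespace Pool.Agent.W643.CE

open Finset Pool.Agent.H23R2 Pool.Agent.H23R2.Ch Pool.Agent.H23R2.Cyc

lemma sumFin {M : Type*} [AddCommMonoid M] (f : ℤ → M) (c : ℤ) (n : ℕ) :
    ∑ j : Fin n, f (c - (j : ℕ)) = ∑ z ∈ Finset.Ioc (c - n) c, f z := by
  induction n with
  | zero => simp
  | succ n ih =>
    rw [Fin.sum_univ_castSucc]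
    have h1 : Finset.Ioc (c - ((n + 1 : ℕ) : ℤ)) c = insert (c - n) (Finset.Ioc (c - n) c) := by
      ext z
      simp only [Finset.mem_Ioc, Finset.mem_insert]
      push_cast
      omega
    rw [h1, Finset.sum_insert (by simp), ← ih, add_comm]
    simp

variable {R : Type*} [CommRing R] {H : Type*} [Group H] {G : Type*} [Group G]
  {d : Type*} [Fintype d] [DecidableEq d]

/-- Toeplitz matrices -/
noncomputable def Tz (α : H → ℚ) (n : ℕ) (s : ℤ) (W : Matrix d d (MonoidAlgebra R H)) :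
    Matrix (Fin n × d) (Fin n × d) (MonoidAlgebra R H) :=
  Matrix.of fun p q => comp R α ((p.1 : ℕ) - (q.1 : ℕ) + s) (W p.2 q.2)

lemma Tz_mul (α : H → ℚ) (n : ℕ) (s s' : ℤ) (W W' : Matrix d d (MonoidAlgebra R H))
    (p q : Fin n × d) :
    (Tz α n s W * Tz α n s' W') p q = ∑ b, ∑ z ∈ Finset.Ioc (((p.1 : ℕ) : ℤ) + s - n) ((p.1 : ℕ) + s),
      comp R α z (W p.2 b) * comp R α ((p.1 : ℕ) - (q.1 : ℕ) + s + s' - z) (W' b q.2) := by
  rw [Matrix.mul_apply, Fintype.sum_prod_type, Finset.sum_comm]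
  refine Finset.sum_congr rfl fun b _ => ?_
  rw [← sumFin (fun z => comp R α z (W p.2 b) *
    comp R α ((p.1 : ℕ) - (q.1 : ℕ) + s + s' - z) (W' b q.2)) (((p.1 : ℕ) : ℤ) + s) n]
  refine Finset.sum_congr rfl fun j _ => ?_
  simp only [Tz, Matrix.of_apply]
  congr 3
  · ring
  · ring

lemma Tz_sum {α : H → ℚ} (hα : ∀ x y, α (x * y) = α x + α y) {N : ℕ}
    {V : Matrix d d (MonoidAlgebra R H)} (hV : ∀ i j, Dg α N (V i j))
    (U : Matrix d d (MonoidAlgebra R H)) (p q : Fin (2 * N) × d) :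
    (Tz α (2 * N) (-N) V * Tz α (2 * N) N U + Tz α (2 * N) N V * Tz α (2 * N) (-N) U) p q =
      comp R α ((p.1 : ℕ) - (q.1 : ℕ)) ((V * U) p.2 q.2) := by
  rw [Matrix.add_apply, Tz_mul, Tz_mul, ← Finset.sum_add_distrib, Matrix.mul_apply, map_sum]
  refine Finset.sum_congr rfl fun b _ => ?_
  rw [comp_mul hα (hV _ _)]
  have hp := p.1.2
  set f : ℤ → MonoidAlgebra R H := fun z => comp R α z (V p.2 b) *
    comp R α ((p.1 : ℕ) - (q.1 : ℕ) - z) (U b q.2) with hf
  have e1 : ∀ z, comp R α z (V p.2 b) *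
      comp R α ((p.1 : ℕ) - (q.1 : ℕ) + -(N : ℤ) + N - z) (U b q.2) = f z := by
    intro z
    rw [hf]
    congr 3
    ring
  have e2 : ∀ z, comp R α z (V p.2 b) *
      comp R α ((p.1 : ℕ) - (q.1 : ℕ) + (N : ℤ) + -(N : ℤ) - z) (U b q.2) = f z := by
    intro z
    rw [hf]
    congr 3
    ring
  simp only [e1, e2]
  have e3 : (((p.1 : ℕ) : ℤ) + N - ((2 * N : ℕ) : ℤ)) = (p.1 : ℕ) + -(N : ℤ) := by
    push_cast; ring
  rw [e3, ← Finset.sum_union (Finset.disjoint_left.mpr (fun z h1 h2 => by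
    rw [Finset.mem_Ioc] at h1 h2; omega)), Finset.Ioc_union_Ioc_eq_Ioc (by push_cast; omega) (by omega)]
  symm
  refine Finset.sum_subset ?_ ?_
  · intro z hz
    rw [Finset.mem_Icc] at hz
    rw [Finset.mem_Ioc]
    push_cast
    omega
  · intro z _ hz
    rw [Finset.mem_Icc] at hz
    rw [comp_eq_zero (hV _ _) (by omega), zero_mul]

lemma Tz_zero {α : H → ℚ} (hα : ∀ x y, α (x * y) = α x + α y) {N : ℕ}
    {U V : Matrix d d (MonoidAlgebra R H)} (hU : ∀ i j, Dg α N (U i j))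
    (hV : ∀ i j, Dg α N (V i j)) (p q : Fin (2 * N) × d) :
    (Tz α (2 * N) N U * Tz α (2 * N) N V) p q =
      comp R α ((p.1 : ℕ) - (q.1 : ℕ) + 2 * N) ((U * V) p.2 q.2) := by
  rw [Tz_mul, Matrix.mul_apply, map_sum]
  refine Finset.sum_congr rfl fun b _ => ?_
  rw [comp_mul hα (hU _ _)]
  have hp := p.1.2
  have hq := q.1.2
  set f : ℤ → MonoidAlgebra R H := fun z => comp R α z (U p.2 b) *
    comp R α ((p.1 : ℕ) - (q.1 : ℕ) + 2 * N - z) (V b q.2) with hf
  have e1 : ∀ z, comp R α z (U p.2 b) *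
      comp R α ((p.1 : ℕ) - (q.1 : ℕ) + (N : ℤ) + N - z) (V b q.2) = f z := by
    intro z
    rw [hf]
    congr 3
    ring
  simp only [e1]
  have h1 : ∀ z ∉ Finset.Icc (-(N : ℤ)) N, f z = 0 := by
    intro z hz
    rw [Finset.mem_Icc] at hz
    rw [hf]
    beta_reduce
    rw [comp_eq_zero (hU _ _) (by omega), zero_mul]
  have h2 : ∀ z ∈ Finset.Icc (-(N : ℤ)) N,
      z ∉ Finset.Ioc (((p.1 : ℕ) : ℤ) + N - ((2 * N : ℕ) : ℤ)) ((p.1 : ℕ) + N) → f z = 0 := by
    intro z hz hz'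
    rw [Finset.mem_Icc] at hz
    rw [Finset.mem_Ioc] at hz'
    push_cast at hz'
    rw [hf]
    beta_reduce
    rw [comp_eq_zero (z := ((p.1 : ℕ) : ℤ) - (q.1 : ℕ) + 2 * N - z) (hV _ _) (by omega), mul_zero]
  have h3 : ∑ z ∈ Finset.Ioc (((p.1 : ℕ) : ℤ) + N - ((2 * N : ℕ) : ℤ)) ((p.1 : ℕ) + N), f z =
      ∑ z ∈ Finset.Ioc (((p.1 : ℕ) : ℤ) + N - ((2 * N : ℕ) : ℤ)) ((p.1 : ℕ) + N) ∪
        Finset.Icc (-(N : ℤ)) N, f z := by
    refine Finset.sum_subset Finset.subset_union_left ?_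
    intro z hz hz'
    rcases Finset.mem_union.mp hz with h4 | h4
    · exact absurd h4 hz'
    · exact h2 z h4 hz'
  rw [h3]
  symm
  refine Finset.sum_subset Finset.subset_union_right ?_
  intro z _ hz'
  exact h1 z hz'

/-- the derivation -/
noncomputable def Dr (R : Type*) [CommRing R] {H : Type*} [Group H] (β : H → R) :
    MonoidAlgebra R H →ₗ[R] MonoidAlgebra R H :=
  ex (fun h => β h • MonoidAlgebra.single h (1 : R))

lemma Dr_single (β : H → R) (h : H) (r : R) :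
    Dr R β (MonoidAlgebra.single h r) = β h • MonoidAlgebra.single h r := by
  unfold Dr
  rw [ex_single, smul_comm, ← single_eq_smul]

/-- counting -/
lemma count {M : Type*} [AddCommGroup M] (s : M) (N : ℕ) (z : ℤ) (h1 : -(N : ℤ) ≤ z) (h2 : z ≤ N) :
    ∑ i : Fin (2 * N), ∑ j : Fin (2 * N),
      (if z = ((i : ℕ) : ℤ) - (j : ℕ) + N then s else 0) = (z + N) • s := by
  have e1 : ∀ i : Fin (2 * N), ∑ j : Fin (2 * N),
      (if z = ((i : ℕ) : ℤ) - (j : ℕ) + N then s else 0) =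
        if ((i : ℕ) : ℤ) < z + N then s else 0 := by
    intro i
    have hi := i.2
    have e2 := sumFin (fun w => if z = w then s else 0) (((i : ℕ) : ℤ) + N) (2 * N)
    have e3 : ∀ j : Fin (2 * N), (if z = ((i : ℕ) : ℤ) - (j : ℕ) + N then s else 0) =
        if z = ((i : ℕ) : ℤ) + N - (j : ℕ) then s else 0 := by
      intro j
      congr 1
      rw [show ((i : ℕ) : ℤ) - (j : ℕ) + N = ((i : ℕ) : ℤ) + N - (j : ℕ) by ring]
    rw [Finset.sum_congr rfl fun j _ => e3 j, e2, Finset.sum_ite_eq]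
    by_cases h3 : ((i : ℕ) : ℤ) < z + N
    · rw [if_pos h3, if_pos]
      rw [Finset.mem_Ioc]
      push_cast
      omega
    · rw [if_neg h3, if_neg]
      rw [Finset.mem_Ioc]
      push_cast
      omega
  rw [Finset.sum_congr rfl fun i _ => e1 i]
  obtain ⟨k, hk⟩ : ∃ k : ℕ, (k : ℤ) = z + N := ⟨(z + N).toNat, by omega⟩
  rw [← hk]
  have hk2 : k ≤ 2 * N := by omega
  rw [Fin.sum_univ_eq_sum_range (fun i : ℕ => if ((i : ℕ) : ℤ) < (k : ℤ) then s else 0) (2 * N)]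
  rw [← Finset.sum_filter]
  have e4 : (Finset.range (2 * N)).filter (fun i : ℕ => (i : ℤ) < k) = Finset.range k := by
    ext i
    simp only [Finset.mem_filter, Finset.mem_range]
    omega
  rw [e4, Finset.sum_const, Finset.card_range, natCast_zsmul]

lemma sum_comp_count {K : Type*} [Field K] [CharZero K] {α : H → ℚ} {N : ℕ}
    {x : MonoidAlgebra K H} (hx : Dg α N x) :
    ∑ i : Fin (2 * N), ∑ j : Fin (2 * N), comp K α (((i : ℕ) : ℤ) - (j : ℕ) + N) x =
      Dr K (fun h => ((α h : ℚ) : K)) x + N • x := by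
  have h1 : ∑ i : Fin (2 * N), ∑ j : Fin (2 * N), comp K α (((i : ℕ) : ℤ) - (j : ℕ) + N) x =
      ex (k := K) (fun h => ∑ i : Fin (2 * N), ∑ j : Fin (2 * N),
        if α h = ((((i : ℕ) : ℤ) - (j : ℕ) + N : ℤ) : ℚ) then MonoidAlgebra.single h (1 : K) else 0)
        x := by
    unfold comp
    rw [ex_eq_sum]
    simp only [ex_eq_sum, Finset.smul_sum]
    have h2 : ∀ i : Fin (2 * N), ∑ j : Fin (2 * N), ∑ f ∈ x.coeff.support, x.coeff f •
        (if α f = ((((i : ℕ) : ℤ) - (j : ℕ) + N : ℤ) : ℚ) then MonoidAlgebra.single f (1 : K)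
          else 0) = ∑ f ∈ x.coeff.support, ∑ j : Fin (2 * N), x.coeff f •
        (if α f = ((((i : ℕ) : ℤ) - (j : ℕ) + N : ℤ) : ℚ) then MonoidAlgebra.single f (1 : K)
          else 0) := fun i => Finset.sum_comm
    rw [Finset.sum_congr rfl fun i _ => h2 i, Finset.sum_comm]
  rw [h1]
  have h3 : Dr K (fun h => ((α h : ℚ) : K)) x + N • x =
      ex (k := K) (fun h => ((α h : ℚ) : K) • MonoidAlgebra.single h (1 : K) +
        N • MonoidAlgebra.single h (1 : K)) x := by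
    unfold Dr
    conv_lhs => rw [← ex_id x]
    rw [ex_id]
    rw [ex_eq_sum, ex_eq_sum]
    conv_lhs =>
      enter [2]
      rw [← ex_id x, ex_eq_sum]
    rw [Finset.smul_sum, ← Finset.sum_add_distrib]
    refine Finset.sum_congr rfl fun f _ => ?_
    rw [smul_add, smul_comm N]
  rw [h3]
  refine ex_congr' _ _ x fun h hh => ?_
  obtain ⟨z, hz, hz1, hz2⟩ := hx h hh
  have h4 := count (MonoidAlgebra.single h (1 : K)) N z hz1 hz2
  have h5 : ∀ i j : Fin (2 * N), (if α h = ((((i : ℕ) : ℤ) - (j : ℕ) + N : ℤ) : ℚ) then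
      MonoidAlgebra.single h (1 : K) else 0) =
      if z = ((i : ℕ) : ℤ) - (j : ℕ) + N then MonoidAlgebra.single h (1 : K) else 0 := by
    intro i j
    rw [hz]
    congr 1
    simp only [eq_iff_iff]
    exact_mod_cast Iff.rfl
  rw [Finset.sum_congr rfl fun i _ => Finset.sum_congr rfl fun j _ => h5 i j, h4, hz, add_smul,
    natCast_zsmul]
  congr 1
  rw [Rat.cast_intCast, Int.cast_smul_eq_zsmul]

end Pool.Agent.W643.CE
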