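import Pool.Agent.H23R2.Ch.Tr

/-!
# The trace of the `p`-th power of a matrix over a monoid algebra, modulo `p`
-/

set_option autoImplicit false
set_option linter.unusedSectionVars false

namespace Pool.Agent.W643.CE

open Finset Pool.Agent.H23R2 Pool.Agent.H23R2.Ch Pool.Agent.H23R2.Cyc

open Classical in
/-- `T ((∑ a s) ^ p) = ∑ T ((a s) ^ p)` for traces with values in a group killed by `p` -/
theorem trace_pow_p {S A M : Type*} [Fintype S] [Ring A] [AddCommGroup M] (T : A →+ M)
    (hT : ∀ x y, T (x * y) = T (y * x)) {p : ℕ} [hp : Fact p.Prime]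
    (hM : ∀ x : M, p • x = 0) (a : S → A) :
    T ((∑ s, a s) ^ p) = ∑ s, T ((a s) ^ p) := by
  have hp0 : p ≠ 0 := hp.out.ne_zero
  have : NeZero p := ⟨hp0⟩
  let _ := rotAction p S
  rw [sum_pow_cyc a p, map_sum]
  set F : (ZMod p → S) → M := fun w => T (mpr (fun i => a (w i)) 0 p) with hF
  have hinv : ∀ (c : ZMod p) w, F (shift c w) = F w := by
    intro c w
    exact rot (fun x => T x) hT c (fun i => a (w i)) hp0
  set P : (ZMod p → S) → Prop := fun w => ∀ k, w k = w 0 with hP
  have hPinv : ∀ (c : ZMod p) w, P (shift c w) ↔ P w := by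
    intro c w
    simp only [hP, shift_apply]
    constructor
    · intro h k
      have h1 := h (k - c)
      have h2 := h (0 - c)
      simp only [sub_add_cancel] at h1 h2
      rw [h1, h2]
    · intro h k
      rw [h (k + c), h (0 + c)]
  have hzero : ∑ w, (if P w then 0 else F w) = 0 := by
    refine sum_orbits (G := ZMod p) _ ?_ ?_
    · intro c w
      show (if P (shift c w) then 0 else F (shift c w)) = _
      simp only [hPinv, hinv]
    · intro w
      by_cases hw : P w
      · simp [hw]
      · simp only [hw, if_false]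
        have h1 : Nat.card (AddAction.orbit (ZMod p) w) =
            (AddAction.stabilizer (ZMod p) w).index :=
          (AddAction.index_stabilizer (ZMod p) w).symm
        have h2 : (AddAction.stabilizer (ZMod p) w).index ∣ p := by
          have h0 := (AddAction.stabilizer (ZMod p) w).index_dvd_card
          rwa [Nat.card_zmod] at h0
        rw [h1]
        rcases (Nat.dvd_prime hp.out).mp h2 with h3 | h3
        · exfalso
          apply hw
          have h4 : (AddAction.stabilizer (ZMod p) w) = ⊤ := AddSubgroup.index_eq_one.mp h3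
          intro k
          have h5 : k ∈ AddAction.stabilizer (ZMod p) w := by rw [h4]; trivial
          have h6 : shift k w = w := h5
          have h7 := congrFun h6 0
          rw [shift_apply, zero_add] at h7
          exact h7
        · rw [h3, hM]
  have hsplit : ∑ w, F w = ∑ w, (if P w then F w else 0) := by
    have h1 : ∀ w, F w = (if P w then F w else 0) + (if P w then 0 else F w) := by
      intro w
      split_ifs <;> simp
    rw [Finset.sum_congr rfl fun w _ => h1 w, Finset.sum_add_distrib, hzero, add_zero]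
  rw [hsplit, ← Finset.sum_filter]
  symm
  refine Finset.sum_bij' (fun s _ => fun _ => s) (fun w _ => w 0) ?_ ?_ ?_ ?_ ?_
  · intro s _
    simp [hP]
  · intro w _
    exact mem_univ _
  · intro s _
    rfl
  · intro w hw
    have h1 : P w := (mem_filter.mp hw).2
    funext k
    exact (h1 k).symm
  · intro s _
    simp only [hF]
    congr 1
    have : ∀ m, mpr (fun _ : ZMod p => a s) 0 m = (a s) ^ m := by
      intro m
      induction m with
      | zero => simp [mpr]
      | succ m ih => rw [mpr, ih, pow_succ]
    exact (this p).symm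

variable {R : Type*} [CommRing R] {H : Type*} [Group H] {d : Type*} [Fintype d] [DecidableEq d]

/-- the trace of a matrix all of whose powers have the same trace is divisible by `p` as soon as
the function is divisible by `p` on the `p`-th powers of the elements of the support -/
theorem tf_div {p : ℕ} (hp : p.Prime) (Φ : H → R) (hΦ : ∀ x y, Φ (x * y) = Φ (y * x))
    (X : Matrix d d (MonoidAlgebra R H)) (hX : tf Φ (X ^ p) = tf Φ X)
    (hgood : ∀ w ∈ msupp X, ∃ y : R, (p : R) * y = Φ (w ^ p)) :
    ∃ y : R, (p : R) * y = tf Φ X := by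
  classical
  have : Fact p.Prime := ⟨hp⟩
  let N : Submodule R R := LinearMap.range (LinearMap.lsmul R R (p : R))
  have hN : ∀ x : R, x ∈ N ↔ ∃ y, (p : R) * y = x := by
    intro x
    simp only [N, LinearMap.mem_range, LinearMap.lsmul_apply, smul_eq_mul]
  have hM : ∀ x : R ⧸ N, p • x = 0 := by
    intro x
    obtain ⟨x, rfl⟩ := N.mkQ_surjective x
    rw [← map_nsmul, Submodule.mkQ_apply, Submodule.Quotient.mk_eq_zero, hN]
    exact ⟨x, by rw [nsmul_eq_mul]⟩
  let T : Matrix d d (MonoidAlgebra R H) →+ R ⧸ N := N.mkQ.toAddMonoidHom.comp (tf Φ)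
  have hT : ∀ x y, T (x * y) = T (y * x) := by
    intro x y
    show N.mkQ (tf Φ (x * y)) = N.mkQ (tf Φ (y * x))
    rw [tf_mul_comm Φ hΦ]
  have h1 := trace_pow_p T hT hM (fun s : {g // g ∈ msupp X} => io (cm X s.1) s.1)
  rw [← eq_sum_io] at h1
  have h2 : T (X ^ p) = N.mkQ (tf Φ X) := by
    show N.mkQ (tf Φ (X ^ p)) = _
    rw [hX]
  rw [h2, Finset.sum_eq_zero] at h1
  · rw [Submodule.mkQ_apply, Submodule.Quotient.mk_eq_zero, hN] at h1
    exact h1
  · intro w _
    rw [io_pow]
    show N.mkQ (tf Φ _) = 0
    rw [tf_io, map_smul]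
    obtain ⟨y, hy⟩ := hgood w.1 w.2
    rw [← hy, ← nsmul_eq_mul, map_nsmul, hM, smul_zero]

end Pool.Agent.W643.CE
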